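import Pool.Agent.W4.QD.Surf

/-!
# Project QD: the abc conjecture for the values of binary forms
-/

set_option autoImplicit false

namespace Pool.Agent.W4.QD

open Finset Polynomial Pool.Agent.W4.CF Pool.Agent.W4.VC

/-- the value of the form of the product -/
theorem hom_abc (F G : ℤ[X]) (d : ℕ) (hF : F.natDegree ≤ d) (hG : G.natDegree ≤ d)
    (u v : ℤ) : hom (F * G * (F + G)) (3 * d) u v =
      hom F d u v * hom G d u v * (hom F d u v + hom G d u v) := by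
  have hFG : (F * G).natDegree ≤ 2 * d := natDegree_mul_le.trans (by omega)
  have hH : (F + G).natDegree ≤ d := (natDegree_add_le _ _).trans (max_le hF hG)
  have hD : (F * G * (F + G)).natDegree ≤ 3 * d := natDegree_mul_le.trans (by omega)
  by_cases hv : v = 0
  · rw [hv, hom_zero_right, hom_zero_right, hom_zero_right]
    have e1 : (F * G).coeff (2 * d) = F.coeff d * G.coeff d := by
      rw [two_mul, coeff_mul_add_eq_of_natDegree_le hF hG]
    have e2 : (F * G * (F + G)).coeff (3 * d) = (F * G).coeff (2 * d) * (F + G).coeff d := by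
      rw [show 3 * d = 2 * d + d by ring, coeff_mul_add_eq_of_natDegree_le hFG hH]
    rw [e2, e1, coeff_add]
    ring
  · have hvQ : (v : ℚ) ≠ 0 := by exact_mod_cast hv
    have h : ((hom (F * G * (F + G)) (3 * d) u v : ℤ) : ℚ) =
      ((hom F d u v * hom G d u v * (hom F d u v + hom G d u v) : ℤ) : ℚ) := by
      push_cast
      rw [hom_eval _ _ hD u v hv, hom_eval _ _ hF u v hv, hom_eval _ _ hG u v hv]
      simp only [Polynomial.map_add, Polynomial.map_mul, eval_add, eval_mul]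
      ring
    exact_mod_cast h

/-- the exceptional pairs -/
def ExAbc (F G : ℤ[X]) (d : ℕ) (M c : ℝ) (X : ℕ) : Set (ℤ × ℤ) :=
  {q | |q.1| ≤ (X : ℤ) ∧ |q.2| ≤ (X : ℤ) ∧ IsCoprime (hom F d q.1 q.2) (hom G d q.1 q.2) ∧
    hom F d q.1 q.2 * hom G d q.1 q.2 * (hom F d q.1 q.2 + hom G d q.1 q.2) ≠ 0 ∧
    ((∏ p ∈ (hom F d q.1 q.2 * hom G d q.1 q.2 *
      (hom F d q.1 q.2 + hom G d q.1 q.2)).natAbs.primeFactors, p : ℕ) : ℝ) ^ M ≤
      c * max (max |((hom F d q.1 q.2 : ℤ) : ℝ)| |((hom G d q.1 q.2 : ℤ) : ℝ)|)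
        |((hom F d q.1 q.2 + hom G d q.1 q.2 : ℤ) : ℝ)|}

theorem exAbc_finite (F G : ℤ[X]) (d : ℕ) (M c : ℝ) (X : ℕ) : (ExAbc F G d M c X).Finite := by
  refine ((Finset.finite_toSet (Icc (-(X : ℤ)) (X : ℤ) ×ˢ Icc (-(X : ℤ)) (X : ℤ)))).subset ?_
  rintro ⟨a, b⟩ ⟨h1, h2, -⟩
  simp only at h1 h2
  rw [Finset.mem_coe, mem_product, mem_Icc, mem_Icc]
  exact ⟨abs_le.mp h1, abs_le.mp h2⟩

theorem hom_dvd (F : ℤ[X]) (d : ℕ) (hd : 1 ≤ d) (w u v : ℤ) (hu : w ∣ u) (hv : w ∣ v) :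
    w ∣ hom F d u v := by
  unfold hom
  refine dvd_sum fun j hj => ?_
  rw [mem_range] at hj
  rcases Nat.eq_zero_or_pos j with h | h
  · rw [h, Nat.sub_zero]
    exact Dvd.dvd.mul_left (hv.trans (dvd_pow_self v (by omega))) _
  · exact Dvd.dvd.mul_right (Dvd.dvd.mul_left (hu.trans (dvd_pow_self u (by omega))) _) _

/-- COUNT of the exceptional pairs -/
theorem abc_count (hTR : S_TRF) (hH : S_HF) (hP : S_PRD) (F G : ℤ[X]) (d : ℕ) (hd : 1 ≤ d)
    (hF : F.natDegree ≤ d) (hG : G.natDegree ≤ d) (r : ℕ) (hr : 1 ≤ r) (g : Fin r → ℤ[X])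
    (hg : ∀ j, Irreducible ((g j).map (Int.castRingHom ℚ)) ∧ 3 ≤ (g j).natDegree)
    (hgD : ∀ j, (g j).map (Int.castRingHom ℚ) ∣ (F * G * (F + G)).map (Int.castRingHom ℚ))
    (hgg : ∀ i j, i ≠ j → ¬ (g i).map (Int.castRingHom ℚ) ∣ (g j).map (Int.castRingHom ℚ))
    (M c E ε : ℝ) (hM : 0 < M) (hc : 0 < c) (hε : 0 < ε) (lam : Fin r → ℝ)
    (hl : ∀ j, 0 ≤ lam j ∧ lam j ≤ ((g j).natDegree : ℝ) - 2) (hL : d / M ≤ ∑ j, lam j)
    (hE : ∀ j, eD (g j).natDegree (lam j) ≤ E) :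
    ∃ C : ℝ, ∀ X : ℕ, 1 ≤ X → (ExAbc F G d M c X).Finite ∧
      ((ExAbc F G d M c X).ncard : ℝ) ≤ C * (X : ℝ) ^ (E + ε) := by
  classical
  have hD : (F * G * (F + G)).natDegree ≤ 3 * d := by
    have hFG : (F * G).natDegree ≤ 2 * d := natDegree_mul_le.trans (by omega)
    have hH : (F + G).natDegree ≤ d := (natDegree_add_le _ _).trans (max_le hF hG)
    exact natDegree_mul_le.trans (by omega)
  have h1 := fun j => (hP (g j) _ (3 * d) (hg j).1 hD).1 (hgD j)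
  choose m1 hm1 hm1' using h1
  have h3 : ∀ i j : Fin r, ∃ m : ℕ, 1 ≤ m ∧ (i ≠ j → ∀ (p : ℕ) (u v : ℤ), IsCoprime u v →
      p.Prime → ¬ p ∣ m → ¬ ((p : ℤ) ∣ hom (g i) (g i).natDegree u v ∧
        (p : ℤ) ∣ hom (g j) (g j).natDegree u v)) := by
    intro i j
    by_cases hij : i = j
    · exact ⟨1, le_rfl, fun h => absurd hij h⟩
    · obtain ⟨m, hm, h⟩ := (hP (g i) (g j) (g j).natDegree (hg i).1 le_rfl).2 (hgg i j hij)
      exact ⟨m, hm, fun _ => h⟩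
  choose m3 hm3 hm3' using h3
  set m : ℕ := (∏ j, m1 j) * (∏ i, ∏ j, m3 i j) with hm
  have hmpos : 1 ≤ m := by
    have e1 : 0 < ∏ j, m1 j := prod_pos fun j _ => hm1 j
    have e3 : 0 < ∏ i, ∏ j, m3 i j := prod_pos fun i _ => prod_pos fun j _ => hm3 i j
    rw [hm]
    exact Nat.mul_pos e1 e3
  have d1 : ∀ j, m1 j ∣ m := fun j => by
    rw [hm]
    exact (dvd_prod_of_mem _ (mem_univ j)).trans (Dvd.intro _ rfl)
  have d3 : ∀ i j, m3 i j ∣ m := fun i j => by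
    rw [hm]
    exact ((dvd_prod_of_mem (fun j => m3 i j) (mem_univ j)).trans
      (dvd_prod_of_mem (fun i => ∏ j, m3 i j) (mem_univ i))).trans (Dvd.intro_left _ rfl)
  obtain ⟨C1, hC1, hF1⟩ := hom_abs_le F d
  obtain ⟨C2, hC2, hG1⟩ := hom_abs_le G d
  set C0 : ℝ := max 1 ((c * (C1 + C2)) ^ (1 / M)) with hC0
  obtain ⟨C, hC, hcount⟩ := pig hTR hH r hr g hg (d / M) E lam hl hL hE m C0 ε hmpos
    (le_max_left _ _) hε
  refine ⟨C, fun X hX => ⟨exAbc_finite _ _ _ _ _ _, ?_⟩⟩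
  have hX1 : (1 : ℝ) ≤ X := by exact_mod_cast hX
  set T : Finset (ℤ × ℤ) := (exAbc_finite F G d M c X).toFinset with hT
  rw [Set.ncard_eq_toFinset_card _ (exAbc_finite F G d M c X), ← hT]
  refine hcount X hX1 T ?_
  rintro ⟨s, t⟩ hq
  rw [hT, Set.Finite.mem_toFinset] at hq
  obtain ⟨hs, ht, hcop, hne, hex⟩ := hq
  simp only at hs ht hcop hne hex
  set x : ℤ := hom F d s t with hx
  set y : ℤ := hom G d s t with hy
  have hst : IsCoprime s t := by
    rw [Int.isCoprime_iff_gcd_eq_one]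
    have h4 : (Int.gcd s t : ℤ) ∣ x := hom_dvd F d hd _ s t (Int.gcd_dvd_left _ _) (Int.gcd_dvd_right _ _)
    have h5 : (Int.gcd s t : ℤ) ∣ y := hom_dvd G d hd _ s t (Int.gcd_dvd_left _ _) (Int.gcd_dvd_right _ _)
    have h6 : IsUnit (Int.gcd s t : ℤ) := hcop.isUnit_of_dvd' h4 h5
    have h7 := Int.isUnit_iff_natAbs_eq.mp h6
    simpa using h7
  have hs' : |(s : ℝ)| ≤ X := by exact_mod_cast hs
  have ht' : |(t : ℝ)| ≤ X := by exact_mod_cast ht
  refine ⟨hst, max_le hs' ht', ?_⟩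
  set H : ℝ := max |(s : ℝ)| |(t : ℝ)| with hH'
  have hH0 : 0 ≤ H := le_max_of_le_left (abs_nonneg _)
  have hdd : hom (F * G * (F + G)) (3 * d) s t = x * y * (x + y) := hom_abc F G d hF hG s t
  set N : ℕ := (x * y * (x + y)).natAbs with hN
  have hrad : ∏ j, radp m (hom (g j) (g j).natDegree s t).natAbs ≤ ∏ p ∈ N.primeFactors, p := by
    refine prod_radp_le r m _ N.primeFactors ?_ ?_ ?_
    · intro p hp
      exact (Nat.prime_of_mem_primeFactors hp).one_lt.le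
    · intro i j hij p hp hpm ⟨h5, h6⟩
      exact hm3' i j hij p s t hst hp (fun h => hpm (h.trans (d3 i j)))
        ⟨Int.natCast_dvd.mpr h5, Int.natCast_dvd.mpr h6⟩
    · intro j p hp hpm hpj
      have h5 : (p : ℤ) ∣ hom (g j) (g j).natDegree s t := Int.natCast_dvd.mpr hpj
      have h6 : (p : ℤ) ∣ x * y * (x + y) := by
        rw [← hdd]
        exact hm1' j p s t hp (fun h => hpm (h.trans (d1 j))) h5
      rw [Nat.mem_primeFactors]
      exact ⟨hp, Int.natCast_dvd.mp h6, Int.natAbs_ne_zero.mpr hne⟩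
  have hrad' : ∏ j, (radp m (hom (g j) (g j).natDegree s t).natAbs : ℝ) ≤
      ((∏ p ∈ N.primeFactors, p : ℕ) : ℝ) := by
    exact_mod_cast hrad
  refine hrad'.trans ?_
  set R : ℝ := ((∏ p ∈ N.primeFactors, p : ℕ) : ℝ) with hR
  have hR0 : 0 ≤ R := Nat.cast_nonneg _
  have hx1 := hF1 s t
  have hy1 := hG1 s t
  rw [← hx, ← hH'] at hx1
  rw [← hy, ← hH'] at hy1
  have hHd : 0 ≤ H ^ d := by positivity
  have hmaxle : max (max |(x : ℝ)| |(y : ℝ)|) |((x + y : ℤ) : ℝ)| ≤ (C1 + C2) * H ^ d := by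
    refine max_le (max_le ?_ ?_) ?_
    · nlinarith
    · nlinarith
    · push_cast
      calc |(x : ℝ) + y| ≤ |(x : ℝ)| + |(y : ℝ)| := abs_add_le _ _
        _ ≤ C1 * H ^ d + C2 * H ^ d := add_le_add hx1 hy1
        _ = _ := by ring
  have h6 : R ^ M ≤ c * (C1 + C2) * H ^ d := by
    calc R ^ M ≤ c * max (max |(x : ℝ)| |(y : ℝ)|) |((x + y : ℤ) : ℝ)| := hex
      _ ≤ c * ((C1 + C2) * H ^ d) := by gcongr
      _ = _ := by ring
  have h7 := Real.rpow_le_rpow (by positivity) h6 (by positivity : 0 ≤ 1 / M)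
  rw [← Real.rpow_mul hR0, mul_one_div_cancel hM.ne', Real.rpow_one,
    Real.mul_rpow (by positivity) (by positivity), ← Real.rpow_natCast _ d,
    ← Real.rpow_mul hH0] at h7
  refine h7.trans ?_
  have e : (d : ℝ) * (1 / M) = d / M := by ring
  rw [e]
  gcongr
  exact le_max_right _ _

end Pool.Agent.W4.QD
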