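import Pool.Agent.W4.QD.Stms

/-!
# Project QD, second part: products of forms, elliptic surfaces, the abc conjecture over number fields
-/

set_option autoImplicit false

namespace Pool.Agent.W4.QD

open NumberField IsDedekindDomain Finset Polynomial Pool.Agent.W4.CF Pool.Agent.W4.VC

/-- the exponent function with a parameter `β` (`BdD d = BdB d (1 / d)`) -/
noncomputable def BdB (n : ℕ) (β Y R : ℝ) : ℝ :=
  min (R ^ ((2 * (1 - β) / n + 1) / (2 - β)))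
    (max (R * Y ^ (-((((n : ℝ) - 2) * (1 - β)) / (2 - β))))
      (R ^ (β / (4 - 3 * β)) * Y ^ ((n : ℝ) * (1 - β) / (4 - 3 * β))))

/-- property (B) of a form, with exponent `β` -/
def HF (f : ℤ[X]) (n : ℕ) (β : ℝ) (i : ℕ) : Prop :=
  ∀ (k : ℕ) (ε : ℝ), 2 ≤ k → 0 < ε →
  ∃ C : ℝ, 0 < C ∧ ∀ Y Z : ℝ, 1 ≤ Y → 1 ≤ Z → ∀ c : ℕ, 1 ≤ c → ∀ s : Finset (ℤ × ℤ),
    (∀ p ∈ s, IsCoprime p.1 p.2 ∧ |(p.1 : ℝ)| ≤ Y ∧ |(p.2 : ℝ)| ≤ Y ∧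
      ∃ z : ℕ, 1 ≤ z ∧ (z : ℝ) ≤ Z ∧ Nat.Coprime z (i * c) ∧
        (hom f n p.1 p.2).natAbs = c * z ^ k) →
    (s.card : ℝ) ≤ C * (Y * c) ^ ε * Z ^ β

/-- SELB: as `S_SEL`, with the parameter `β`. -/
def S_SELB : Prop := ∀ (n : ℕ) (β c0 c1 ε : ℝ), 3 ≤ n → 0 < β → β < 1 → 0 < c0 → 0 < c1 → 0 < ε →
  ∃ (C : ℝ) (k0 : ℕ), 0 < C ∧
  ∀ (m f : ℕ) (Y R : ℝ), 1 ≤ m → 1 ≤ f → 1 ≤ Y → 1 ≤ R → (f : ℝ) ≤ c0 * Y ^ n →
    (radp m f : ℝ) ≤ R → R ≤ c1 * Y ^ (n - 2) →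
    (∃ q : ℕ, q ∣ f ∧ (radp m q : ℝ) * max 1 ((f : ℝ) / (Y ^ (n - 2) * q)) ≤
      C * Y ^ ε * BdB n β Y R) ∨
    (∃ k : ℕ, 2 ≤ k ∧ k ≤ k0 ∧
      (radp m f : ℝ) ≤ C * Y ^ ε * BdB n β Y R * (fk m f k : ℝ) ^ (1 - β))

/-- TRF: as `S_TR`, for every form with property (B). -/
def S_TRF : Prop := ∀ (f : ℤ[X]) (n : ℕ) (β : ℝ) (i : ℕ), Sqf f n → 3 ≤ n → 0 < β → β < 1 →
  1 ≤ i → HF f n β i → ∀ c1 ε : ℝ, 0 < c1 → 0 < ε → ∃ C : ℝ, 0 < C ∧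
  ∀ (m : ℕ) (Y R : ℝ), 1 ≤ m → i ∣ m → 1 ≤ Y → 1 ≤ R → R ≤ c1 * Y ^ (n - 2) →
    ∀ s : Finset (ℤ × ℤ), (∀ p ∈ s, Dy Y p ∧ hom f n p.1 p.2 ≠ 0 ∧
      (radp m (hom f n p.1 p.2).natAbs : ℝ) ≤ R) →
    (s.card : ℝ) ≤ C * ((m : ℝ) * Y) ^ ε * BdB n β Y R

/-- HF: property (B) for the forms with irreducible factors of degree at least three. -/
def S_HF : Prop := ∀ (r : ℕ) (g : Fin r → ℤ[X]) (h : ℤ[X]) (n : ℕ), 1 ≤ r →
  (∀ j, Irreducible ((g j).map (Int.castRingHom ℚ)) ∧ 3 ≤ (g j).natDegree) →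
  Sqf ((∏ j, g j) * h) n →
  ∃ i : ℕ, 1 ≤ i ∧ HF ((∏ j, g j) * h) n (1 / ((∑ j, (g j).natDegree : ℕ) : ℝ)) i

/-- PRD: divisibility and coprimality of forms, for their values at coprime integers. -/
def S_PRD : Prop := ∀ (g D : ℤ[X]) (N : ℕ), Irreducible (g.map (Int.castRingHom ℚ)) →
  D.natDegree ≤ N →
  (g.map (Int.castRingHom ℚ) ∣ D.map (Int.castRingHom ℚ) → ∃ m : ℕ, 1 ≤ m ∧
    ∀ (p : ℕ) (u v : ℤ), p.Prime → ¬ p ∣ m → (p : ℤ) ∣ hom g g.natDegree u v →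
      (p : ℤ) ∣ hom D N u v) ∧
  (¬ g.map (Int.castRingHom ℚ) ∣ D.map (Int.castRingHom ℚ) → ∃ m : ℕ, 1 ≤ m ∧
    ∀ (p : ℕ) (u v : ℤ), IsCoprime u v → p.Prime → ¬ p ∣ m →
      ¬ ((p : ℤ) ∣ hom g g.natDegree u v ∧ (p : ℤ) ∣ hom D N u v))

/-- the points `((x - α)(β - γ) : (x - β)(γ - α) : (x - γ)(α - β))` of the line `a + b + c = 0` -/
def ptK {K : Type} [Field K] (α : Fin 3 → K) (x : K) : Fin 3 → K :=
  ![(x - α 0) * (α 1 - α 2), (x - α 1) * (α 2 - α 0), (x - α 2) * (α 0 - α 1)]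

/-- the absolute logarithmic height of a point of the projective plane -/
noncomputable def htK {K : Type} [Field K] [NumberField K] (P : Fin 3 → K) : ℝ :=
  (∑ w : InfinitePlace K, (w.mult : ℝ) * Real.log (max (w (P 0)) (max (w (P 1)) (w (P 2)))) +
    ∑ᶠ v : HeightOneSpectrum (RingOfIntegers K),
      Real.log (max (FinitePlace.mk v (P 0)) (max (FinitePlace.mk v (P 1))
        (FinitePlace.mk v (P 2))))) / (Module.finrank ℚ K : ℝ)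

/-- the radical: the primes at which the three absolute values are not all equal -/
noncomputable def radK {K : Type} [Field K] [NumberField K] (P : Fin 3 → K) : ℝ :=
  (∑ᶠ (v : HeightOneSpectrum (RingOfIntegers K))
    (_ : ¬ (FinitePlace.mk v (P 0) = FinitePlace.mk v (P 1) ∧
      FinitePlace.mk v (P 1) = FinitePlace.mk v (P 2))),
      Real.log (Ideal.absNorm v.asIdeal : ℝ)) / (Module.finrank ℚ K : ℝ)

/-- HTP: upper bound for the height of `ptK α x`, `x` rational. -/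
def S_HTP : Prop := ∀ (K : Type) [Field K] [NumberField K] (α : Fin 3 → K),
  Function.Injective α → ∃ C : ℝ, ∀ u v : ℤ, IsCoprime u v → v ≠ 0 →
    (∀ j, (u : K) - v * α j ≠ 0) →
    htK (ptK α ((u : K) / (v : K))) ≤ Real.log (max |(u : ℝ)| |(v : ℝ)|) + C

/-- RADK: lower bound for the radical of `ptK α x`, `x` rational: `f j` are forms of the
`α j`. -/
def S_RADK : Prop := ∀ (K : Type) [Field K] [NumberField K] (α : Fin 3 → K),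
  Function.Injective α → ∀ (f : Fin 3 → ℤ[X]),
  (∀ j, Irreducible ((f j).map (Int.castRingHom ℚ)) ∧ aeval (α j) (f j) = 0) →
  ∃ m : ℕ, 1 ≤ m ∧ ∀ u v : ℤ, IsCoprime u v → v ≠ 0 → (∀ j, (u : K) - v * α j ≠ 0) →
    ∑ j, ∑ p ∈ (hom (f j) (f j).natDegree u v).natAbs.primeFactors.filter (fun p => ¬ p ∣ m),
      Real.log (p : ℝ) ≤ (Module.finrank ℚ K : ℝ) * radK (ptK α ((u : K) / (v : K)))

end Pool.Agent.W4.QD
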