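import Pool.Agent.W4.QD.Num
import Pool.Agent.W4.QD.Stms4

/-!
# Project QD, second part: from a dyadic box to all coprime pairs; the pigeonhole
-/

set_option autoImplicit false

namespace Pool.Agent.W4.QD

open NumberField Finset Polynomial Pool.Agent.W4.CF Pool.Agent.W4.VC

/-- the exponent -/
noncomputable def eB (n : ℕ) (β lam : ℝ) : ℝ :=
  min (((2 * (1 - β) / n + 1) / (2 - β)) * lam)
    (max (lam - (((n : ℝ) - 2) * (1 - β)) / (2 - β))
      ((β * lam + (n : ℝ) * (1 - β)) / (4 - 3 * β)))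

theorem eB_eq (d : ℕ) (hd : 3 ≤ d) (lam : ℝ) : eB d (1 / (d : ℝ)) lam = eD d lam := by
  have hd' : (3 : ℝ) ≤ d := by exact_mod_cast hd
  have h0 : (d : ℝ) ≠ 0 := by linarith
  have h1 : (2 * (d : ℝ) - 1) ≠ 0 := by linarith
  have h2 : (4 * (d : ℝ) - 3) ≠ 0 := by linarith
  have e1 : (2 : ℝ) - 1 / d = (2 * d - 1) / d := by field_simp
  have e2 : (4 : ℝ) - 3 * (1 / d) = (4 * d - 3) / d := by field_simp
  unfold eB eD
  rw [e1, e2]
  congr 1
  · congr 1
    field_simp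
    ring
  · congr 1
    · congr 1
      field_simp
    · field_simp

theorem eB_nonneg (n : ℕ) (hn : 3 ≤ n) (β lam : ℝ) (h0 : 0 < β) (h1 : β < 1) (hl : 0 ≤ lam) :
    0 ≤ eB n β lam := by
  have hn' : (3 : ℝ) ≤ n := by exact_mod_cast hn
  unfold eB
  refine le_min ?_ (le_max_of_le_right ?_)
  · apply mul_nonneg _ hl
    have : 0 ≤ 2 * (1 - β) / (n : ℝ) := div_nonneg (by linarith) (by linarith)
    exact div_nonneg (by linarith) (by linarith)
  · apply div_nonneg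
    · have := mul_nonneg h0.le hl
      have := mul_nonneg (by linarith : (0 : ℝ) ≤ n) (by linarith : (0 : ℝ) ≤ 1 - β)
      linarith
    · linarith

theorem bdB_le (n : ℕ) (hn : 3 ≤ n) (β C Y lam : ℝ) (h0 : 0 < β) (h1 : β < 1) (hC : 1 ≤ C)
    (hY : 1 ≤ Y) : BdB n β Y (C * Y ^ lam) ≤ C * Y ^ eB n β lam := by
  have hn' : (3 : ℝ) ≤ n := by exact_mod_cast hn
  have hY0 : 0 < Y := by linarith
  have hC0 : 0 < C := by linarith
  have hYl : 0 < Y ^ lam := Real.rpow_pos_of_pos hY0 _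
  have hCpow : ∀ x : ℝ, x ≤ 1 → C ^ x ≤ C := fun x hx => by
    calc C ^ x ≤ C ^ (1 : ℝ) := Real.rpow_le_rpow_of_exponent_le hC hx
      _ = C := Real.rpow_one _
  unfold BdB eB
  set a : ℝ := (2 * (1 - β) / n + 1) / (2 - β) with ha
  set b : ℝ := (((n : ℝ) - 2) * (1 - β)) / (2 - β) with hb
  have ha1 : a ≤ 1 := by
    rw [ha, div_le_one (by linarith)]
    have : 2 * (1 - β) / n ≤ 1 - β := by
      rw [div_le_iff₀ (by linarith)]
      nlinarith
    linarith
  have g1 : (C * Y ^ lam) ^ a ≤ C * Y ^ (a * lam) := by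
    rw [Real.mul_rpow hC0.le hYl.le, ← Real.rpow_mul hY0.le, mul_comm lam a]
    exact mul_le_mul_of_nonneg_right (hCpow a ha1) (Real.rpow_nonneg hY0.le _)
  have g2 : C * Y ^ lam * Y ^ (-b) ≤ C * Y ^ (lam - b) := by
    rw [mul_assoc, ← Real.rpow_add hY0, sub_eq_add_neg]
  have hc4 : (0 : ℝ) < 4 - 3 * β := by linarith
  have g3 : (C * Y ^ lam) ^ (β / (4 - 3 * β)) * Y ^ ((n : ℝ) * (1 - β) / (4 - 3 * β)) ≤
      C * Y ^ ((β * lam + (n : ℝ) * (1 - β)) / (4 - 3 * β)) := by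
    rw [Real.mul_rpow hC0.le hYl.le, ← Real.rpow_mul hY0.le, mul_assoc, ← Real.rpow_add hY0]
    have e : lam * (β / (4 - 3 * β)) + (n : ℝ) * (1 - β) / (4 - 3 * β) =
        (β * lam + (n : ℝ) * (1 - β)) / (4 - 3 * β) := by
      field_simp
    rw [e]
    refine mul_le_mul_of_nonneg_right (hCpow _ ?_) (Real.rpow_nonneg hY0.le _)
    rw [div_le_one hc4]
    linarith
  have hmono : ∀ x y : ℝ, x ≤ y → C * Y ^ x ≤ C * Y ^ y := fun x y hxy =>
    mul_le_mul_of_nonneg_left (Real.rpow_le_rpow_of_exponent_le hY hxy) hC0.le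
  rcases le_total (a * lam) (max (lam - b) ((β * lam + (n : ℝ) * (1 - β)) / (4 - 3 * β))) with h | h
  · rw [min_eq_left h]
    exact (min_le_left _ _).trans g1
  · rw [min_eq_right h]
    refine (min_le_right _ _).trans (max_le ?_ ?_)
    · exact g2.trans (hmono _ _ (le_max_left _ _))
    · exact g3.trans (hmono _ _ (le_max_right _ _))

theorem radp_anti' {m m' : ℕ} (h : m ∣ m') (n : ℕ) : radp m' n ≤ radp m n := by
  unfold radp
  refine Finset.prod_le_prod_of_subset_of_one_le' ?_ ?_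
  · intro p hp
    rw [mem_filter] at hp ⊢
    exact ⟨hp.1, fun hd => hp.2 (hd.trans h)⟩
  · intro p hp _
    exact (Nat.prime_of_mem_primeFactors (mem_filter.mp hp).1).one_lt.le

/-- COUNT: coprime pairs of bounded size with small radical -/
theorem qcountF (hTR : S_TRF) (f : ℤ[X]) (n : ℕ) (β : ℝ) (i : ℕ) (hsq : Sqf f n) (hn : 3 ≤ n)
    (h0 : 0 < β) (h1 : β < 1) (hi : 1 ≤ i) (hHF : HF f n β i) (m : ℕ) (C0 lam ε : ℝ) (hm : 1 ≤ m)
    (hC0 : 1 ≤ C0) (hl : 0 ≤ lam) (hl2 : lam ≤ (n : ℝ) - 2) (hε : 0 < ε) :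
    ∃ C : ℝ, 0 < C ∧ ∀ W : ℝ, 1 ≤ W → ∀ s : Finset (ℤ × ℤ),
      (∀ p ∈ s, IsCoprime p.1 p.2 ∧ max |(p.1 : ℝ)| |(p.2 : ℝ)| ≤ W ∧ hom f n p.1 p.2 ≠ 0 ∧
        (radp m (hom f n p.1 p.2).natAbs : ℝ) ≤ C0 * (max |(p.1 : ℝ)| |(p.2 : ℝ)|) ^ lam) →
      (s.card : ℝ) ≤ C * W ^ (eB n β lam + ε) := by
  classical
  obtain ⟨C5, hC5, hcount⟩ := hTR f n β i hsq hn h0 h1 hi hHF C0 (ε / 2) (by linarith)
    (by positivity)
  set e : ℝ := eB n β lam with he
  have he0 : 0 ≤ e := eB_nonneg n hn β lam h0 h1 hl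
  set a : ℝ := e + ε with ha
  have ha0 : 0 < a := by positivity
  have hx1 : (1 : ℝ) < (2 : ℝ) ^ a := Real.one_lt_rpow (by norm_num) ha0
  have hxa : (0 : ℝ) < (2 : ℝ) ^ a - 1 := by linarith
  set m' : ℕ := m * i with hm'
  have hm1 : 1 ≤ m' := Nat.one_le_iff_ne_zero.mpr (by
    have : 0 < m * i := Nat.mul_pos hm hi
    omega)
  have hm0 : (0 : ℝ) < m' := by exact_mod_cast hm1
  set A : ℝ := C5 * (m' : ℝ) ^ (ε / 2) * C0 with hA
  have hA0 : 0 < A := by positivity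
  refine ⟨A * ((4 : ℝ) ^ a / ((2 : ℝ) ^ a - 1)), by positivity, ?_⟩
  intro W hW s hs
  have hW0 : 0 < W := by linarith
  have hex : ∀ p ∈ s, ∃ j : ℕ, Dy (2 ^ j) p ∧ (2 : ℝ) ^ j ≤ 2 * max |(p.1 : ℝ)| |(p.2 : ℝ)| ∧
      max |(p.1 : ℝ)| |(p.2 : ℝ)| ≤ 2 ^ j := fun p hp => by
    obtain ⟨u, v⟩ := p
    exact dyadic u v (hs _ hp).1
  choose! F hF using hex
  set J : ℕ := Nat.log 2 ⌊2 * W⌋₊ + 1 with hJ
  have hfl : ⌊2 * W⌋₊ ≠ 0 := by
    have : 1 ≤ ⌊2 * W⌋₊ := Nat.le_floor (by push_cast; linarith)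
    omega
  have hJW : (2 : ℝ) ^ J ≤ 4 * W := by
    have h1 : 2 ^ Nat.log 2 ⌊2 * W⌋₊ ≤ ⌊2 * W⌋₊ := Nat.pow_log_le_self 2 hfl
    have h2 : ((2 ^ Nat.log 2 ⌊2 * W⌋₊ : ℕ) : ℝ) ≤ 2 * W :=
      (by exact_mod_cast h1 : ((2 ^ Nat.log 2 ⌊2 * W⌋₊ : ℕ) : ℝ) ≤ (⌊2 * W⌋₊ : ℝ)).trans
        (Nat.floor_le (by positivity))
    rw [hJ, pow_succ]
    push_cast at h2
    linarith
  have hcov : s ⊆ (range J).biUnion (fun j => s.filter (fun p => F p = j)) := by
    intro p hp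
    rw [mem_biUnion]
    refine ⟨F p, ?_, mem_filter.mpr ⟨hp, rfl⟩⟩
    rw [mem_range, hJ, Nat.lt_succ_iff]
    apply Nat.le_log_of_pow_le (by norm_num)
    apply Nat.le_floor
    push_cast
    have h1 := (hF p hp).2.1
    have h2 := (hs p hp).2.1
    linarith
  have hclass : ∀ j ∈ range J, ((s.filter (fun p => F p = j)).card : ℝ) ≤ A * ((2 : ℝ) ^ a) ^ j := by
    intro j _
    have hY1 : (1 : ℝ) ≤ 2 ^ j := one_le_pow₀ (by norm_num)
    have hY0 : (0 : ℝ) < 2 ^ j := by positivity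
    set R : ℝ := C0 * ((2 : ℝ) ^ j) ^ lam with hR
    have hR1 : 1 ≤ R := by
      have := Real.one_le_rpow hY1 hl
      nlinarith
    have hRY : R ≤ C0 * ((2 : ℝ) ^ j) ^ (n - 2) := by
      rw [hR]
      apply mul_le_mul_of_nonneg_left _ (by linarith)
      rw [← Real.rpow_natCast ((2 : ℝ) ^ j) (n - 2)]
      apply Real.rpow_le_rpow_of_exponent_le hY1
      rw [Nat.cast_sub (by omega : 2 ≤ n)]
      push_cast
      exact hl2
    have hmain := hcount m' (2 ^ j) R hm1 ⟨m, by rw [hm']; ring⟩ hY1 hR1 hRY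
      (s.filter (fun p => F p = j)) (by
      intro p hp
      rw [mem_filter] at hp
      obtain ⟨hp, rfl⟩ := hp
      obtain ⟨h1, h2, h3⟩ := hF p hp
      refine ⟨h1, (hs p hp).2.2.1, ?_⟩
      have h4 : (radp m' (hom f n p.1 p.2).natAbs : ℝ) ≤ (radp m (hom f n p.1 p.2).natAbs : ℝ) := by
        exact_mod_cast radp_anti' ⟨i, hm'⟩ _
      refine h4.trans ((hs p hp).2.2.2.trans ?_)
      rw [hR]
      apply mul_le_mul_of_nonneg_left _ (by linarith)
      exact Real.rpow_le_rpow (le_max_of_le_left (abs_nonneg _)) h3 hl)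
    refine hmain.trans ?_
    have hb := bdB_le n hn β C0 (2 ^ j) lam h0 h1 hC0 hY1
    calc C5 * ((m' : ℝ) * 2 ^ j) ^ (ε / 2) * BdB n β (2 ^ j) R ≤
          C5 * ((m' : ℝ) * 2 ^ j) ^ (ε / 2) * (C0 * ((2 : ℝ) ^ j) ^ e) := by gcongr
      _ = A * (((2 : ℝ) ^ j) ^ (ε / 2) * ((2 : ℝ) ^ j) ^ e) := by
          rw [Real.mul_rpow hm0.le hY0.le, hA]
          ring
      _ = A * ((2 : ℝ) ^ j) ^ (ε / 2 + e) := by rw [Real.rpow_add hY0]
      _ ≤ A * ((2 : ℝ) ^ j) ^ a := by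
          apply mul_le_mul_of_nonneg_left _ hA0.le
          apply Real.rpow_le_rpow_of_exponent_le hY1
          rw [ha]
          linarith
      _ = A * ((2 : ℝ) ^ a) ^ j := by
          congr 1
          rw [← Real.rpow_natCast, ← Real.rpow_natCast, ← Real.rpow_mul (by norm_num),
            ← Real.rpow_mul (by norm_num), mul_comm]
  calc (s.card : ℝ) ≤ (((range J).biUnion (fun j => s.filter (fun p => F p = j))).card : ℝ) := by
        exact_mod_cast card_le_card hcov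
    _ ≤ ∑ j ∈ range J, ((s.filter (fun p => F p = j)).card : ℝ) := by
        exact_mod_cast card_biUnion_le
    _ ≤ ∑ j ∈ range J, A * ((2 : ℝ) ^ a) ^ j := sum_le_sum hclass
    _ = A * ((((2 : ℝ) ^ a) ^ J - 1) / ((2 : ℝ) ^ a - 1)) := by
        rw [← mul_sum, geom_sum_eq hx1.ne']
    _ ≤ A * ((4 : ℝ) ^ a * W ^ a / ((2 : ℝ) ^ a - 1)) := by
        apply mul_le_mul_of_nonneg_left _ hA0.le
        apply div_le_div_of_nonneg_right _ hxa.le
        have h1 : ((2 : ℝ) ^ a) ^ J = ((2 : ℝ) ^ J) ^ a := by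
          rw [← Real.rpow_natCast, ← Real.rpow_natCast, ← Real.rpow_mul (by norm_num),
            ← Real.rpow_mul (by norm_num), mul_comm]
        rw [h1, ← Real.mul_rpow (by norm_num) hW0.le]
        have h2 : ((2 : ℝ) ^ J) ^ a ≤ (4 * W) ^ a := Real.rpow_le_rpow (by positivity) hJW ha0.le
        linarith
    _ = _ := by ring

/-- an irreducible polynomial of degree `≥ 2` has no rational zero -/
theorem hom_ne_zero (g : ℤ[X]) (hirr : Irreducible (g.map (Int.castRingHom ℚ)))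
    (hd : 2 ≤ g.natDegree) (u v : ℤ) (huv : IsCoprime u v) : hom g g.natDegree u v ≠ 0 := by
  have hg0 : g ≠ 0 := by
    rintro rfl
    rw [natDegree_zero] at hd
    omega
  have hinj : Function.Injective (Int.castRingHom ℚ) := Int.cast_injective
  intro h
  by_cases hv : v = 0
  · have h1 : hom g g.natDegree u 0 = g.leadingCoeff * u ^ g.natDegree := by
      unfold hom
      rw [sum_range_succ, sum_eq_zero, zero_add, Nat.sub_self, pow_zero, mul_one]
      · rfl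
      · intro j hj
        rw [mem_range] at hj
        rw [zero_pow (by omega), mul_zero]
    rw [hv, h1] at h
    rcases mul_eq_zero.mp h with h2 | h2
    · exact hg0 (leadingCoeff_eq_zero.mp h2)
    · have hu : u = 0 := pow_eq_zero_iff (by omega) |>.mp h2
      rw [hu, hv] at huv
      exact not_isCoprime_zero_zero huv
  · have hvQ : (v : ℚ) ≠ 0 := by exact_mod_cast hv
    have hroot : (g.map (Int.castRingHom ℚ)).IsRoot ((u : ℚ) / v) := by
      rw [IsRoot.def, eval_map, eval₂_eq_sum_range]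
      have h2 : ((hom g g.natDegree u v : ℤ) : ℚ) = 0 := by rw [h]; norm_num
      unfold hom at h2
      push_cast at h2
      have h3 : (∑ j ∈ range (g.natDegree + 1), (Int.castRingHom ℚ) (g.coeff j) *
          ((u : ℚ) / v) ^ j) * (v : ℚ) ^ g.natDegree = 0 := by
        rw [← h2, sum_mul]
        refine sum_congr rfl fun j hj => ?_
        rw [mem_range] at hj
        have e : (v : ℚ) ^ g.natDegree = v ^ j * v ^ (g.natDegree - j) := by
          rw [← pow_add]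
          congr 1
          omega
        rw [e, div_pow, eq_intCast]
        field_simp
      rcases mul_eq_zero.mp h3 with h4 | h4
      · exact h4
      · exact absurd h4 (pow_ne_zero _ hvQ)
    have h5 : (g.map (Int.castRingHom ℚ)).natDegree = 1 :=
      natDegree_eq_of_degree_eq_some (degree_eq_one_of_irreducible_of_root hirr hroot)
    rw [natDegree_map_eq_of_injective hinj] at h5
    omega

theorem irr_sqf (g : ℤ[X]) (hirr : Irreducible (g.map (Int.castRingHom ℚ))) :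
    Sqf g g.natDegree := ⟨hirr.squarefree, le_rfl, by omega⟩

theorem irr_HF (hH : S_HF) (g : ℤ[X]) (hirr : Irreducible (g.map (Int.castRingHom ℚ)))
    (hd : 3 ≤ g.natDegree) : ∃ i : ℕ, 1 ≤ i ∧ HF g g.natDegree (1 / (g.natDegree : ℝ)) i := by
  have h := hH 1 (fun _ => g) 1 g.natDegree le_rfl (fun _ => ⟨hirr, hd⟩) (by
    simpa using irr_sqf g hirr)
  simpa using h

/-- COUNT for an irreducible form -/
theorem icount (hTR : S_TRF) (hH : S_HF) (g : ℤ[X])
    (hirr : Irreducible (g.map (Int.castRingHom ℚ))) (hd : 3 ≤ g.natDegree) (m : ℕ)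
    (C0 lam ε : ℝ) (hm : 1 ≤ m) (hC0 : 1 ≤ C0) (hl : 0 ≤ lam)
    (hl2 : lam ≤ (g.natDegree : ℝ) - 2) (hε : 0 < ε) :
    ∃ C : ℝ, 0 < C ∧ ∀ W : ℝ, 1 ≤ W → ∀ s : Finset (ℤ × ℤ),
      (∀ p ∈ s, IsCoprime p.1 p.2 ∧ max |(p.1 : ℝ)| |(p.2 : ℝ)| ≤ W ∧
        (radp m (hom g g.natDegree p.1 p.2).natAbs : ℝ) ≤
          C0 * (max |(p.1 : ℝ)| |(p.2 : ℝ)|) ^ lam) →
      (s.card : ℝ) ≤ C * W ^ (eD g.natDegree lam + ε) := by
  obtain ⟨i, hi, hHF⟩ := irr_HF hH g hirr hd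
  have hd' : (3 : ℝ) ≤ g.natDegree := by exact_mod_cast hd
  have hb1 : 1 / (g.natDegree : ℝ) < 1 := by
    rw [div_lt_one (by linarith)]
    linarith
  obtain ⟨C, hC, h⟩ := qcountF hTR g g.natDegree (1 / (g.natDegree : ℝ)) i (irr_sqf g hirr) hd
    (by positivity) hb1 hi hHF m C0 lam ε hm hC0 hl hl2 hε
  rw [eB_eq _ hd] at h
  exact ⟨C, hC, fun W hW s hs => h W hW s fun p hp =>
    ⟨(hs p hp).1, (hs p hp).2.1, hom_ne_zero g hirr (by omega) _ _ (hs p hp).1, (hs p hp).2.2⟩⟩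

/-- PIGEONHOLE: several irreducible forms -/
theorem pig (hTR : S_TRF) (hH : S_HF) (r : ℕ) (hr : 1 ≤ r) (g : Fin r → ℤ[X])
    (hg : ∀ j, Irreducible ((g j).map (Int.castRingHom ℚ)) ∧ 3 ≤ (g j).natDegree)
    (L E : ℝ) (lam : Fin r → ℝ) (hl : ∀ j, 0 ≤ lam j ∧ lam j ≤ ((g j).natDegree : ℝ) - 2)
    (hL : L ≤ ∑ j, lam j) (hE : ∀ j, eD (g j).natDegree (lam j) ≤ E)
    (m : ℕ) (C0 ε : ℝ) (hm : 1 ≤ m) (hC0 : 1 ≤ C0) (hε : 0 < ε) :
    ∃ C : ℝ, 0 < C ∧ ∀ W : ℝ, 1 ≤ W → ∀ s : Finset (ℤ × ℤ),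
      (∀ p ∈ s, IsCoprime p.1 p.2 ∧ max |(p.1 : ℝ)| |(p.2 : ℝ)| ≤ W ∧
        ∏ j, (radp m (hom (g j) (g j).natDegree p.1 p.2).natAbs : ℝ) ≤
          C0 * (max |(p.1 : ℝ)| |(p.2 : ℝ)|) ^ L) →
      (s.card : ℝ) ≤ C * W ^ (E + ε) := by
  classical
  have hcnt := fun j => icount hTR hH (g j) (hg j).1 (hg j).2 m C0
    (lam j) ε hm hC0 (hl j).1 (hl j).2 hε
  choose C hC hcount using hcnt
  refine ⟨∑ j, C j, ?_, fun W hW s hs => ?_⟩
  · exact sum_pos (fun j _ => hC j) ⟨⟨0, by omega⟩, mem_univ _⟩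
  have hW0 : 0 < W := by linarith
  have hcov : s ⊆ (univ : Finset (Fin r)).biUnion (fun j => s.filter (fun p =>
      (radp m (hom (g j) (g j).natDegree p.1 p.2).natAbs : ℝ) ≤
        C0 * (max |(p.1 : ℝ)| |(p.2 : ℝ)|) ^ (lam j))) := by
    intro p hp
    obtain ⟨h1, h2, h3⟩ := hs p hp
    set M : ℝ := max |(p.1 : ℝ)| |(p.2 : ℝ)| with hM
    have hM1 : 1 ≤ M := by
      have hne : p.1 ≠ 0 ∨ p.2 ≠ 0 := by
        by_contra hcon
        push Not at hcon
        rw [hcon.1, hcon.2] at h1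
        exact not_isCoprime_zero_zero h1
      rcases hne with h | h
      · have : (1 : ℤ) ≤ |p.1| := Int.one_le_abs h
        have h' : (1 : ℝ) ≤ |(p.1 : ℝ)| := by exact_mod_cast this
        exact h'.trans (le_max_left _ _)
      · have : (1 : ℤ) ≤ |p.2| := Int.one_le_abs h
        have h' : (1 : ℝ) ≤ |(p.2 : ℝ)| := by exact_mod_cast this
        exact h'.trans (le_max_right _ _)
    have hM0 : 0 < M := by linarith
    rw [mem_biUnion]
    by_contra hcon
    push Not at hcon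
    have h4 : ∀ j, C0 * M ^ (lam j) <
        (radp m (hom (g j) (g j).natDegree p.1 p.2).natAbs : ℝ) := by
      intro j
      have := hcon j (mem_univ j)
      rw [mem_filter] at this
      push Not at this
      exact this hp
    have h5 : ∏ j, (C0 * M ^ (lam j)) <
        ∏ j, (radp m (hom (g j) (g j).natDegree p.1 p.2).natAbs : ℝ) := by
      apply prod_lt_prod_of_nonempty
      · intro j _
        positivity
      · intro j _
        exact h4 j
      · exact ⟨⟨0, by omega⟩, mem_univ _⟩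
    have h6 : ∏ j, (C0 * M ^ (lam j)) = C0 ^ r * M ^ (∑ j, lam j) := by
      rw [prod_mul_distrib, prod_const, card_univ, Fintype.card_fin, ← Real.rpow_sum_of_pos hM0]
    have h8 : C0 * M ^ L ≤ C0 ^ r * M ^ (∑ j, lam j) := by
      apply mul_le_mul _ _ (by positivity) (by positivity)
      · exact le_self_pow₀ hC0 (by omega)
      · exact Real.rpow_le_rpow_of_exponent_le hM1 hL
    linarith
  calc (s.card : ℝ) ≤ ∑ j, ((s.filter (fun p =>
      (radp m (hom (g j) (g j).natDegree p.1 p.2).natAbs : ℝ) ≤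
        C0 * (max |(p.1 : ℝ)| |(p.2 : ℝ)|) ^ (lam j))).card : ℝ) := by
        exact_mod_cast (card_le_card hcov).trans card_biUnion_le
    _ ≤ ∑ j, C j * W ^ (E + ε) := by
        refine sum_le_sum fun j _ => ?_
        refine (hcount j W hW _ ?_).trans ?_
        · intro p hp
          rw [mem_filter] at hp
          exact ⟨(hs p hp.1).1, (hs p hp.1).2.1, hp.2⟩
        · apply mul_le_mul_of_nonneg_left _ (hC j).le
          apply Real.rpow_le_rpow_of_exponent_le hW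
          have := hE j
          linarith
    _ = _ := by rw [sum_mul]

end Pool.Agent.W4.QD
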