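import Pool.Agent.W4.CF.Stms4
import Pool.Agent.W4.VC.Stms

/-!
# Project QD: the pencil of curves with the same points of order three; counting functions
-/

set_option autoImplicit false

namespace Pool.Agent.W4.QD

open NumberField IsDedekindDomain Finset Polynomial Pool.Agent.W4.CF Pool.Agent.W4.VC

/-- the first coefficient of the member `(s : t)` of the pencil of `y² = x³ - a x - b` -/
def PA {R : Type} [CommRing R] (a b s t : R) : R :=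
  a * s ^ 4 + 18 * b * s ^ 3 * t + 18 * a ^ 2 * s ^ 2 * t ^ 2 + 54 * a * b * s * t ^ 3 +
    (243 * b ^ 2 - 27 * a ^ 3) * t ^ 4

/-- the second coefficient -/
def PB {R : Type} [CommRing R] (a b s t : R) : R :=
  b * s ^ 6 + 4 * a ^ 2 * s ^ 5 * t + 45 * a * b * s ^ 4 * t ^ 2 + 270 * b ^ 2 * s ^ 3 * t ^ 3 +
    135 * a ^ 2 * b * s ^ 2 * t ^ 4 + (108 * a ^ 4 - 486 * a * b ^ 2) * s * t ^ 5 +
    (243 * a ^ 3 * b - 1458 * b ^ 3) * t ^ 6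

/-- the form of the points of order three -/
def PT {R : Type} [CommRing R] (a b s t : R) : R :=
  s ^ 4 - 18 * a * s ^ 2 * t ^ 2 - 108 * b * s * t ^ 3 - 27 * a ^ 2 * t ^ 4

theorem pencil_disc {R : Type} [CommRing R] (a b s t : R) :
    4 * PA a b s t ^ 3 - 27 * PB a b s t ^ 2 = (4 * a ^ 3 - 27 * b ^ 2) * PT a b s t ^ 3 := by
  unfold PA PB PT
  ring

/-- `y² = x³ - a x - b` is a member of the pencil of `y² = x³ - a₀ x - b₀` -/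
def InPencil (a0 b0 a b : ℤ) : Prop :=
  ∃ u s t : ℚ, u ≠ 0 ∧ (a : ℚ) = u ^ 4 * PA (a0 : ℚ) b0 s t ∧ (b : ℚ) = u ^ 6 * PB (a0 : ℚ) b0 s t

/-- PEN: minimal models in the pencil. -/
def S_PEN : Prop := ∀ a0 b0 : ℤ, 4 * a0 ^ 3 - 27 * b0 ^ 2 ≠ 0 →
  ∃ (m : ℕ) (C : ℝ) (φ : ℤ × ℤ → ℤ × ℤ), 1 ≤ m ∧ 1 ≤ C ∧
    ∀ a b : ℤ, 4 * a ^ 3 - 27 * b ^ 2 ≠ 0 → (∀ (u : ℚ) (a' b' : ℤ), u ≠ 0 →
        (a' : ℚ) = u ^ 4 * a → (b' : ℚ) = u ^ 6 * b →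
        |4 * a ^ 3 - 27 * b ^ 2| ≤ |4 * a' ^ 3 - 27 * b' ^ 2|) →
      InPencil a0 b0 a b →
      IsCoprime (φ (a, b)).1 (φ (a, b)).2 ∧ PT a0 b0 (φ (a, b)).1 (φ (a, b)).2 ≠ 0 ∧
      (∀ p : ℕ, p.Prime → ¬ p ∣ m → (p : ℤ) ∣ PT a0 b0 (φ (a, b)).1 (φ (a, b)).2 →
        5 ≤ p ∧ (p : ℤ) ∣ 4 * a ^ 3 - 27 * b ^ 2) ∧
      |((4 * a ^ 3 - 27 * b ^ 2 : ℤ) : ℝ)| ≤
        C * |((PT a0 b0 (φ (a, b)).1 (φ (a, b)).2 : ℤ) : ℝ)| ^ 3 ∧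
      (∀ H : ℝ, 0 ≤ H → |(a : ℝ)| ≤ H ^ 4 → |(b : ℝ)| ≤ H ^ 6 →
        max |((φ (a, b)).1 : ℝ)| |((φ (a, b)).2 : ℝ)| ≤ C * H) ∧
      ∀ a' b' : ℤ, 4 * a' ^ 3 - 27 * b' ^ 2 ≠ 0 → (∀ (u : ℚ) (a'' b'' : ℤ), u ≠ 0 →
          (a'' : ℚ) = u ^ 4 * a' → (b'' : ℚ) = u ^ 6 * b' →
          |4 * a' ^ 3 - 27 * b' ^ 2| ≤ |4 * a'' ^ 3 - 27 * b'' ^ 2|) →
        InPencil a0 b0 a' b' → φ (a, b) = φ (a', b') → a = a' ∧ b = b'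

/-- CNTQ: for a rational `x = u/v` the truncated counting function of the zeros of a form is
at least the sum of `log p` over the primes `p ∤ m` that divide the value. -/
def S_CNTQ : Prop := ∀ (K : Type) [Field K] [NumberField K]
  (T : Set (HeightOneSpectrum (RingOfIntegers K))), T.Finite →
  ∀ (q : ℕ) (α : Fin q → K × K), (∀ i, α i ≠ 0) →
  (∀ i j, i ≠ j → (α i).1 * (α j).2 - (α i).2 * (α j).1 ≠ 0) →
  ∀ f : ℤ[X], f ≠ 0 → f.natDegree ≤ q →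
  (∀ i, ∑ j ∈ range (q + 1), (f.coeff j : K) * (α i).1 ^ j * (α i).2 ^ (q - j) = 0) →
  ∃ m : ℕ, 1 ≤ m ∧ ∀ u v : ℤ, IsCoprime u v → v ≠ 0 → hom f q u v ≠ 0 →
    ∑ p ∈ (hom f q u v).natAbs.primeFactors.filter (fun p => ¬ p ∣ m), Real.log (p : ℝ) ≤
      countingK T α ((u : K) / (v : K))

end Pool.Agent.W4.QD
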