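import Pool.Agent.W4.QD.Conj
import Pool.Agent.W4.QD.Num2
import Pool.Agent.W462.QD.CntQ

/-!
# Project QD: rational points close to the zeros of a form with factors of degree at least three
-/

set_option autoImplicit false

namespace Pool.Agent.W4.QD

open NumberField IsDedekindDomain Finset Polynomial Pool.Agent.W4.CF Pool.Agent.W4.VC

theorem conj_main2 (hTR : S_TRF) (hHF : S_HF) (hC : S_CNTQ) (hH : S_HTQ)
    (K : Type) [Field K] [NumberField K] (T : Set (HeightOneSpectrum (RingOfIntegers K)))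
    (hT : T.Finite) (q : ℕ) (hq : 3 ≤ q) (α : Fin q → K × K) (hα0 : ∀ i, α i ≠ 0)
    (hα : ∀ i j, i ≠ j → (α i).1 * (α j).2 - (α i).2 * (α j).1 ≠ 0)
    (r : ℕ) (hr : 1 ≤ r) (g : Fin r → ℤ[X]) (h : ℤ[X])
    (hg : ∀ j, Irreducible ((g j).map (Int.castRingHom ℚ)) ∧ 3 ≤ (g j).natDegree)
    (hsq : Sqf ((∏ j, g j) * h) q)
    (hF : ∀ i, ∑ j ∈ range (q + 1), (((∏ j, g j) * h).coeff j : K) * (α i).1 ^ j *
      (α i).2 ^ (q - j) = 0)
    (κ c0 δ : ℝ) (h2 : 2 ≤ κ) (h3 : κ ≤ q) (hδ : 0 < δ) :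
    ∃ C : ℝ, 0 < C ∧ ∀ B : ℝ, 1 ≤ B → (EQ T α κ c0 B).Finite ∧
      ((EQ T α κ c0 B).ncard : ℝ) ≤
        C * B ^ (eB q (1 / ((∑ j, (g j).natDegree : ℕ) : ℝ)) (q - κ) + δ) := by
  classical
  obtain ⟨i, hi, hHf⟩ := hHF r g h q hr hg hsq
  set f : ℤ[X] := (∏ j, g j) * h with hf
  set D : ℕ := ∑ j, (g j).natDegree with hD
  have hD3 : 3 ≤ D := by
    have h1 : (g ⟨0, by omega⟩).natDegree ≤ ∑ j, (g j).natDegree :=
      single_le_sum (f := fun j => (g j).natDegree) (fun _ _ => Nat.zero_le _) (mem_univ _)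
    have h2 := (hg ⟨0, by omega⟩).2
    omega
  have hDR : (3 : ℝ) ≤ D := by exact_mod_cast hD3
  have hb1 : 1 / (D : ℝ) < 1 := by
    rw [div_lt_one (by linarith)]
    linarith
  have hf0 : f ≠ 0 := by
    rintro h0
    have := hsq.1.ne_zero
    rw [h0, Polynomial.map_zero] at this
    exact this rfl
  obtain ⟨m, hm, hcnt⟩ := hC K T hT q α hα0 hα f hf0 hsq.2.1 hF
  set lam : ℝ := q - κ with hlam
  have hlam0 : 0 ≤ lam := by rw [hlam]; linarith
  set C0 : ℝ := max 1 (Real.exp c0) with hC0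
  obtain ⟨C, hC, hmain⟩ := qcountF hTR f q (1 / (D : ℝ)) i hsq hq (by positivity) hb1 hi hHf m C0
    lam δ hm (le_max_left _ _) hlam0 (by rw [hlam]; linarith) hδ
  refine ⟨C, hC, fun B hB => ?_⟩
  let G : ℚ → ℤ × ℤ := fun x => (x.num, (x.den : ℤ))
  have hinj : Function.Injective G := by
    intro x y h
    have h1 : x.num = y.num := congrArg Prod.fst h
    have h2 : (x.den : ℤ) = (y.den : ℤ) := congrArg Prod.snd h
    exact Rat.ext h1 (by exact_mod_cast h2)
  -- the form vanishes only at the points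
  have hzero : ∀ x : ℚ, (∀ l, (x : K) * (α l).2 - 1 * (α l).1 ≠ 0) →
      hom f q x.num (x.den : ℤ) ≠ 0 := by
    intro x hx h0
    have hinjK : Function.Injective (Int.castRingHom K) := Int.cast_injective
    obtain ⟨c, hc, hfac⟩ := Pool.Agent.W462.QD.fac α hα0 hα (f.map (Int.castRingHom K))
      ((Polynomial.map_ne_zero_iff hinjK).mpr hf0)
      ((natDegree_map_le).trans hsq.2.1) (by
        intro i
        have := hF i
        unfold Pool.Agent.W462.QD.hK
        simpa [coeff_map] using this)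
    have h1 := hfac (x.num : K) (x.den : K)
    have h4 : Pool.Agent.W462.QD.hK (f.map (Int.castRingHom K)) q (x.num : K) (x.den : K) = 0 := by
      have h5 : ((hom f q x.num (x.den : ℤ) : ℤ) : K) = 0 := by rw [h0]; exact Int.cast_zero
      unfold hom at h5
      unfold Pool.Agent.W462.QD.hK
      push_cast at h5
      simpa [coeff_map] using h5
    rw [h4] at h1
    rcases mul_eq_zero.mp h1.symm with h6 | h6
    · exact hc h6
    · obtain ⟨l, -, hl⟩ := prod_eq_zero_iff.mp h6
      apply hx l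
      have hd : (x.den : K) ≠ 0 := by exact_mod_cast x.den_nz
      have e : (x : K) = (x.num : K) / (x.den : K) := Rat.cast_def x
      rw [e]
      have : (x.num : K) / (x.den : K) * (α l).2 - 1 * (α l).1 =
          ((x.num : K) * (α l).2 - (x.den : K) * (α l).1) / (x.den : K) := by
        field_simp
      rw [this, hl, zero_div]
  have key : ∀ x ∈ EQ T α κ c0 B, IsCoprime (G x).1 (G x).2 ∧
      max |((G x).1 : ℝ)| |((G x).2 : ℝ)| ≤ B ∧ hom f q (G x).1 (G x).2 ≠ 0 ∧
      (radp m (hom f q (G x).1 (G x).2).natAbs : ℝ) ≤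
        C0 * (max |((G x).1 : ℝ)| |((G x).2 : ℝ)|) ^ lam := by
    rintro x ⟨hx1, hx2, hx3⟩
    have hgx : G x = (x.num, (x.den : ℤ)) := rfl
    rw [hgx]
    simp only
    have hcop : IsCoprime x.num (x.den : ℤ) := by
      rw [Int.isCoprime_iff_gcd_eq_one]
      exact x.reduced
    have hden : (x.den : ℤ) ≠ 0 := by exact_mod_cast x.den_nz
    have hxeq : (x : K) = ((x.num : ℤ) : K) / (((x.den : ℤ)) : K) := by
      push_cast
      exact (Rat.cast_def x)
    have hh : heightK (x : K) = Real.log (max |(x.num : ℝ)| |((x.den : ℤ) : ℝ)|) := by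
      rw [hxeq]
      exact hH K _ _ hcop hden
    set mx : ℝ := max |(x.num : ℝ)| |((x.den : ℤ) : ℝ)| with hmx
    have hmaxpos : 0 < mx := by
      refine lt_of_lt_of_le ?_ (le_max_right _ _)
      have : ((x.den : ℤ) : ℝ) ≠ 0 := by exact_mod_cast x.den_nz
      positivity
    have hhom0 := hzero x hx1
    refine ⟨hcop, ?_, hhom0, ?_⟩
    · rw [hh, Real.exp_log hmaxpos] at hx2
      exact hx2
    · have h1 := hcnt x.num (x.den : ℤ) hcop hden hhom0
      rw [← hxeq] at h1
      rw [hh] at hx3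
      have h4 : Real.log (radp m (hom f q x.num (x.den : ℤ)).natAbs : ℝ) ≤
          lam * Real.log mx + c0 := by
        unfold radp
        rw [Nat.cast_prod, Real.log_prod (fun p hp => by
          have := (Nat.prime_of_mem_primeFactors (mem_filter.mp hp).1).ne_zero
          exact_mod_cast this)]
        exact h1.trans hx3.le
      have hrad0 : (0 : ℝ) < (radp m (hom f q x.num (x.den : ℤ)).natAbs : ℝ) := by
        exact_mod_cast radp_pos' _ _
      calc (radp m (hom f q x.num (x.den : ℤ)).natAbs : ℝ) =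
            Real.exp (Real.log (radp m (hom f q x.num (x.den : ℤ)).natAbs : ℝ)) :=
            (Real.exp_log hrad0).symm
        _ ≤ Real.exp (lam * Real.log mx + c0) := Real.exp_le_exp.mpr h4
        _ = Real.exp c0 * mx ^ lam := by
            rw [Real.exp_add, Real.rpow_def_of_pos hmaxpos, mul_comm (Real.log mx) lam]
            ring
        _ ≤ C0 * mx ^ lam := by
            gcongr
            exact le_max_right _ _
  have hfin : (EQ T α κ c0 B).Finite := by
    refine Set.Finite.of_finite_image ?_ hinj.injOn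
    refine ((Finset.finite_toSet (Icc (-⌈B⌉) (⌈B⌉) ×ˢ Icc (-⌈B⌉) (⌈B⌉)))).subset ?_
    rintro _ ⟨x, hx, rfl⟩
    obtain ⟨-, hb, -⟩ := key x hx
    have b1 : |((G x).1 : ℝ)| ≤ (⌈B⌉ : ℝ) := ((le_max_left _ _).trans hb).trans (Int.le_ceil _)
    have b2 : |((G x).2 : ℝ)| ≤ (⌈B⌉ : ℝ) := ((le_max_right _ _).trans hb).trans (Int.le_ceil _)
    rw [Finset.mem_coe, mem_product, mem_Icc, mem_Icc]
    refine ⟨abs_le.mp ?_, abs_le.mp ?_⟩
    · exact_mod_cast b1
    · exact_mod_cast b2
  refine ⟨hfin, ?_⟩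
  rw [Set.ncard_eq_toFinset_card _ hfin, ← card_image_of_injective _ hinj]
  exact hmain B hB (hfin.toFinset.image G) (by
    intro p hp
    obtain ⟨x, hx, rfl⟩ := mem_image.mp hp
    rw [Set.Finite.mem_toFinset] at hx
    exact key x hx)

end Pool.Agent.W4.QD
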