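import Pool.Agent.W4.QD.Num2

/-!
# Project QD: the abc conjecture over number fields, for the points of rational lines
-/

set_option autoImplicit false

namespace Pool.Agent.W4.QD

open NumberField IsDedekindDomain Finset Polynomial Pool.Agent.W4.CF Pool.Agent.W4.VC

/-- an integral polynomial irreducible over `ℚ` with a given zero -/
theorem exists_int_poly {K : Type} [Field K] [NumberField K] (α : K) : ∃ f : ℤ[X],
    Irreducible (f.map (Int.castRingHom ℚ)) ∧ aeval α f = 0 ∧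
      f.natDegree = (minpoly ℚ α).natDegree := by
  have hα : IsIntegral ℚ α := Algebra.IsIntegral.isIntegral α
  obtain ⟨b, hb⟩ := IsLocalization.integerNormalization_map_to_map (nonZeroDivisors ℤ)
    (minpoly ℚ α)
  set f : ℤ[X] := IsLocalization.integerNormalization (nonZeroDivisors ℤ) (minpoly ℚ α) with hf
  have hbne : ((b : ℤ) : ℚ) ≠ 0 := by
    have := nonZeroDivisors.ne_zero b.2
    exact_mod_cast this
  have e : (algebraMap ℤ ℚ) = Int.castRingHom ℚ := RingHom.ext_int _ _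
  have h1 : f.map (Int.castRingHom ℚ) = C ((b : ℤ) : ℚ) * minpoly ℚ α := by
    rw [← e, hb]
    ext n
    rw [coeff_smul, coeff_C_mul, zsmul_eq_mul]
  have hunit : IsUnit (C ((b : ℤ) : ℚ) : ℚ[X]) := by
    rw [isUnit_C]
    exact isUnit_iff_ne_zero.mpr hbne
  refine ⟨f, ?_, ?_, ?_⟩
  · rw [h1]
    exact (irreducible_isUnit_mul hunit).mpr (minpoly.irreducible hα)
  · have h2 : aeval α (f.map (algebraMap ℤ ℚ)) = 0 := by
      rw [e, h1, map_mul, minpoly.aeval, mul_zero]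
    rwa [aeval_map_algebraMap] at h2
  · have h3 : (f.map (Int.castRingHom ℚ)).natDegree = f.natDegree :=
      natDegree_map_eq_of_injective Int.cast_injective _
    rw [← h3, h1, natDegree_C_mul hbne]

/-- the exceptional points of the line -/
def ExNF {K : Type} [Field K] [NumberField K] (α : Fin 3 → K) (κ c B : ℝ) : Set ℚ :=
  {x : ℚ | |(x.num : ℝ)| ≤ B ∧ (x.den : ℝ) ≤ B ∧ κ * radK (ptK α (x : K)) ≤ htK (ptK α (x : K)) + c}

theorem nf_count (hTR : S_TRF) (hHF : S_HF) (hH : S_HTP) (hR : S_RADK) (K : Type) [Field K]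
    [NumberField K] (α : Fin 3 → K) (hα : Function.Injective α)
    (hd : ∀ j, 3 ≤ (minpoly ℚ (α j)).natDegree) (κ c E ε : ℝ) (hκ : 0 < κ) (hε : 0 < ε)
    (lam : Fin 3 → ℝ) (hl : ∀ j, 0 ≤ lam j ∧ lam j ≤ ((minpoly ℚ (α j)).natDegree : ℝ) - 2)
    (hL : (Module.finrank ℚ K : ℝ) / κ ≤ ∑ j, lam j)
    (hE : ∀ j, eD (minpoly ℚ (α j)).natDegree (lam j) ≤ E) :
    ∃ C : ℝ, ∀ B : ℝ, 1 ≤ B → (ExNF α κ c B).Finite ∧
      ((ExNF α κ c B).ncard : ℝ) ≤ C * B ^ (E + ε) := by
  classical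
  have hex := fun j => exists_int_poly (α j)
  choose f hf1 hf2 hf3 using hex
  obtain ⟨Ch, hCh⟩ := hH K α hα
  obtain ⟨m, hm, hrad⟩ := hR K α hα f (fun j => ⟨hf1 j, hf2 j⟩)
  set n : ℝ := (Module.finrank ℚ K : ℝ) with hn
  have hn0 : 0 < n := by
    rw [hn]
    exact_mod_cast (Module.finrank_pos : 0 < Module.finrank ℚ K)
  set C0 : ℝ := max 1 (Real.exp (n / κ * (Ch + c))) with hC0
  obtain ⟨C, hC, hcount⟩ := pig hTR hHF 3 (by norm_num) f
    (fun j => ⟨hf1 j, by rw [hf3 j]; exact hd j⟩) (n / κ) E lam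
    (fun j => by rw [hf3 j]; exact hl j) hL (fun j => by rw [hf3 j]; exact hE j) m C0 ε hm
    (le_max_left _ _) hε
  refine ⟨C, fun B hB => ?_⟩
  let G : ℚ → ℤ × ℤ := fun x => (x.num, (x.den : ℤ))
  have hinj : Function.Injective G := by
    intro x y h
    have h1 : x.num = y.num := congrArg Prod.fst h
    have h2 : (x.den : ℤ) = (y.den : ℤ) := congrArg Prod.snd h
    exact Rat.ext h1 (by exact_mod_cast h2)
  have hfin : (ExNF α κ c B).Finite := by
    refine Set.Finite.of_finite_image ?_ hinj.injOn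
    refine ((Finset.finite_toSet (Icc (-⌈B⌉) (⌈B⌉) ×ˢ Icc (-⌈B⌉) (⌈B⌉)))).subset ?_
    rintro _ ⟨x, ⟨h1, h2, -⟩, rfl⟩
    have b1 : |(x.num : ℝ)| ≤ (⌈B⌉ : ℝ) := h1.trans (Int.le_ceil _)
    have b2 : |((x.den : ℤ) : ℝ)| ≤ (⌈B⌉ : ℝ) := by
      rw [Int.cast_natCast, Nat.abs_cast]
      exact h2.trans (Int.le_ceil _)
    have b1' : |x.num| ≤ ⌈B⌉ := by exact_mod_cast b1
    have b2' : |(x.den : ℤ)| ≤ ⌈B⌉ := by
      rw [← Int.cast_abs] at b2
      exact_mod_cast b2
    rw [Finset.mem_coe, mem_product, mem_Icc, mem_Icc]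
    exact ⟨abs_le.mp b1', abs_le.mp b2'⟩
  refine ⟨hfin, ?_⟩
  rw [Set.ncard_eq_toFinset_card _ hfin, ← card_image_of_injective _ hinj]
  refine hcount B hB (hfin.toFinset.image G) ?_
  intro p hp
  obtain ⟨x, hx, rfl⟩ := mem_image.mp hp
  rw [Set.Finite.mem_toFinset] at hx
  obtain ⟨h1, h2, h3⟩ := hx
  have hgx : G x = (x.num, (x.den : ℤ)) := rfl
  rw [hgx]
  simp only
  have hcop : IsCoprime x.num (x.den : ℤ) := by
    rw [Int.isCoprime_iff_gcd_eq_one]
    exact x.reduced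
  have hden : (x.den : ℤ) ≠ 0 := by exact_mod_cast x.den_nz
  have hxeq : (x : K) = ((x.num : ℤ) : K) / (((x.den : ℤ)) : K) := by
    push_cast
    exact (Rat.cast_def x)
  have hne : ∀ j, ((x.num : ℤ) : K) - ((x.den : ℤ) : K) * α j ≠ 0 := by
    intro j h0
    have hdK : ((x.den : ℤ) : K) ≠ 0 := by exact_mod_cast x.den_nz
    have h4 : α j = algebraMap ℚ K x := by
      rw [eq_ratCast, hxeq, eq_div_iff hdK]
      linear_combination -h0
    have h5 := hd j
    rw [h4, minpoly.eq_X_sub_C, natDegree_X_sub_C] at h5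
    omega
  set H : ℝ := max |(x.num : ℝ)| |((x.den : ℤ) : ℝ)| with hHd
  have hH0 : 0 < H := by
    refine lt_of_lt_of_le ?_ (le_max_right _ _)
    have : ((x.den : ℤ) : ℝ) ≠ 0 := by exact_mod_cast x.den_nz
    positivity
  refine ⟨hcop, max_le h1 (by rw [Int.cast_natCast, Nat.abs_cast]; exact h2), ?_⟩
  have a1 := hCh x.num (x.den : ℤ) hcop hden hne
  have a2 := hrad x.num (x.den : ℤ) hcop hden hne
  rw [← hxeq] at a1 a2
  have a3 : (∑ j, ∑ p ∈ (hom (f j) (f j).natDegree x.num (x.den : ℤ)).natAbs.primeFactors.filter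
      (fun p => ¬ p ∣ m), Real.log (p : ℝ)) ≤ n / κ * (Real.log H + (Ch + c)) := by
    refine a2.trans ?_
    have h5 : radK (ptK α (x : K)) ≤ (Real.log H + (Ch + c)) / κ := by
      rw [le_div_iff₀ hκ]
      linarith
    calc n * radK (ptK α (x : K)) ≤ n * ((Real.log H + (Ch + c)) / κ) := by gcongr
      _ = _ := by ring
  have a4 : ∏ j, (radp m (hom (f j) (f j).natDegree x.num (x.den : ℤ)).natAbs : ℝ) =
      Real.exp (∑ j, ∑ p ∈ (hom (f j) (f j).natDegree x.num (x.den : ℤ)).natAbs.primeFactors.filter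
      (fun p => ¬ p ∣ m), Real.log (p : ℝ)) := by
    rw [Real.exp_sum]
    refine prod_congr rfl fun j _ => ?_
    rw [Real.exp_sum]
    unfold radp
    rw [Nat.cast_prod]
    refine prod_congr rfl fun p hp => ?_
    rw [Real.exp_log]
    exact_mod_cast (Nat.prime_of_mem_primeFactors (mem_filter.mp hp).1).pos
  rw [a4]
  calc Real.exp _ ≤ Real.exp (n / κ * (Real.log H + (Ch + c))) := Real.exp_le_exp.mpr a3
    _ = Real.exp (n / κ * (Ch + c)) * H ^ (n / κ) := by
        rw [mul_add, Real.exp_add, Real.rpow_def_of_pos hH0, mul_comm (Real.log H) (n / κ)]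
        ring
    _ ≤ C0 * H ^ (n / κ) := by
        gcongr
        exact le_max_right _ _

end Pool.Agent.W4.QD
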