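import Pool.Agent.W4.QD.Pencil
import Pool.Agent.W4.CF.Global

/-!
# Project QD: the semistable members of the pencil
-/

set_option autoImplicit false

namespace Pool.Agent.W4.QD

open NumberField Finset
open Pool.Agent.W270.TM (ExcW ExcU excW_count)
open Pool.Agent.H39R3 (GMin condW)
open Pool.Agent.W4.CF (gmin_of_coprime condW_le)

/-- the curve `W` is isomorphic to a member of the pencil -/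
def PenW (a0 b0 : ℤ) (W : WeierstrassCurve ℤ) : Prop :=
  ∃ u s t : ℚ, u ≠ 0 ∧ (27 * W.c₄ : ℚ) = u ^ 4 * PA (a0 : ℚ) b0 s t ∧
    (54 * W.c₆ : ℚ) = u ^ 6 * PB (a0 : ℚ) b0 s t

theorem penW_in (a0 b0 : ℤ) (W : WeierstrassCurve ℤ) (u : ℚ) (a b : ℤ)
    (hu : u ≠ 0) (ha : (a : ℚ) = u ^ 4 * (27 * W.c₄ : ℤ)) (hb : (b : ℚ) = u ^ 6 * (54 * W.c₆ : ℤ))
    (hT : PenW a0 b0 W) : InPencil a0 b0 a b := by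
  obtain ⟨v, s, t, hv, h1, h2⟩ := hT
  refine ⟨u * v, s, t, mul_ne_zero hu hv, ?_, ?_⟩
  · rw [ha]
    push_cast
    rw [h1]
    ring
  · rw [hb]
    push_cast
    rw [h2]
    ring

/-- exceptional classes of semistable curves -/
def ExSemi (a0 b0 : ℤ) (κ c : ℝ) (X : ℕ) : Set (ℤ × ℤ) :=
  {q | ∃ W : WeierstrassCurve ℤ, W.Δ ≠ 0 ∧ IsCoprime W.c₄ W.Δ ∧ PenW a0 b0 W ∧ q = (W.c₄, W.c₆) ∧
    |W.c₄| ^ 3 ≤ (X : ℤ) ^ 6 ∧ W.c₆ ^ 2 ≤ (X : ℤ) ^ 6 ∧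
    c * ((∏ p ∈ W.Δ.natAbs.primeFactors, p : ℕ) : ℝ) ^ κ < |(W.Δ : ℝ)|}

theorem pen_semi (hTR : S_TR) (hN : S_NRM) (hP : S_PEN2) (a0 b0 : ℤ)
    (h0 : 4 * a0 ^ 3 - 27 * b0 ^ 2 ≠ 0)
    (hirr : Irreducible ((qT a0 b0).map (Int.castRingHom ℚ))) (κ c ε : ℝ) (hκ : 6 ≤ κ)
    (hc : 0 < c) (hε : 0 < ε) :
    ∃ C : ℝ, 0 < C ∧ ∀ X : ℕ, 1 ≤ X → (ExSemi a0 b0 κ c X).Finite ∧
      ((ExSemi a0 b0 κ c X).ncard : ℝ) ≤ C * (X : ℝ) ^ (eD 4 (12 / κ) / 2 + ε) := by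
  obtain ⟨C, hC0, h⟩ := excW_count (PenW a0 b0) (InPencil a0 b0) (penW_in a0 b0) κ c
    (eD 4 (12 / κ) / 2 + ε) hκ hc
    (pen_count hTR hN hP a0 b0 h0 hirr κ (746496 / c) ε hκ (by positivity) hε)
  refine ⟨C, hC0, fun X hX => ?_⟩
  obtain ⟨h1, h2⟩ := h X hX
  have hsub : ExSemi a0 b0 κ c X ⊆ ExcW (PenW a0 b0) κ c X := by
    rintro q ⟨W, q1, q2, q3, q4, q5, q6, q7⟩
    refine ⟨W, gmin_of_coprime W q1 q2, q3, q4, q5, q6, ?_⟩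
    have hrel : 1728 * (W.Δ : ℝ) = (W.c₄ : ℝ) ^ 3 - (W.c₆ : ℝ) ^ 2 := by
      exact_mod_cast W.c_relation
    have e1 : 1728 * |(W.Δ : ℝ)| ≤ |(W.c₄ : ℝ)| ^ 3 + (W.c₆ : ℝ) ^ 2 := by
      calc 1728 * |(W.Δ : ℝ)| = |1728 * (W.Δ : ℝ)| := by rw [abs_mul]; norm_num
        _ = |(W.c₄ : ℝ) ^ 3 - (W.c₆ : ℝ) ^ 2| := by rw [hrel]
        _ ≤ |(W.c₄ : ℝ) ^ 3| + |(W.c₆ : ℝ) ^ 2| := abs_sub _ _
        _ = _ := by rw [abs_pow, abs_of_nonneg (sq_nonneg (W.c₆ : ℝ))]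
    have e2 := le_max_left (|(W.c₄ : ℝ)| ^ 3) ((W.c₆ : ℝ) ^ 2)
    have e3 := le_max_right (|(W.c₄ : ℝ)| ^ 3) ((W.c₆ : ℝ) ^ 2)
    have e4 : 0 ≤ |(W.Δ : ℝ)| := abs_nonneg _
    have e5 : (condW W : ℝ) ≤ ((∏ p ∈ W.Δ.natAbs.primeFactors, p : ℕ) : ℝ) := by
      exact_mod_cast condW_le W q2
    have e6 : c * (condW W : ℝ) ^ κ ≤
        c * ((∏ p ∈ W.Δ.natAbs.primeFactors, p : ℕ) : ℝ) ^ κ := by
      gcongr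
    linarith
  refine ⟨h1.subset hsub, le_trans ?_ h2⟩
  exact_mod_cast Set.ncard_le_ncard hsub h1

end Pool.Agent.W4.QD
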