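import Pool.Agent.W4.QD.Stms2

/-!
# Project QD: the pencil, with the bound for the height
-/

set_option autoImplicit false

namespace Pool.Agent.W4.QD

/-- PEN2: minimal models in the pencil; as PEN, with a bound for `max (|a|³) (b²)`. -/
def S_PEN2 : Prop := ∀ a0 b0 : ℤ, 4 * a0 ^ 3 - 27 * b0 ^ 2 ≠ 0 →
  ∃ (m : ℕ) (C : ℝ) (φ : ℤ × ℤ → ℤ × ℤ), 1 ≤ m ∧ 1 ≤ C ∧
    ∀ a b : ℤ, 4 * a ^ 3 - 27 * b ^ 2 ≠ 0 → (∀ (u : ℚ) (a' b' : ℤ), u ≠ 0 →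
        (a' : ℚ) = u ^ 4 * a → (b' : ℚ) = u ^ 6 * b →
        |4 * a ^ 3 - 27 * b ^ 2| ≤ |4 * a' ^ 3 - 27 * b' ^ 2|) →
      InPencil a0 b0 a b →
      IsCoprime (φ (a, b)).1 (φ (a, b)).2 ∧ PT a0 b0 (φ (a, b)).1 (φ (a, b)).2 ≠ 0 ∧
      (∀ p : ℕ, p.Prime → ¬ p ∣ m → (p : ℤ) ∣ PT a0 b0 (φ (a, b)).1 (φ (a, b)).2 →
        5 ≤ p ∧ (p : ℤ) ∣ 4 * a ^ 3 - 27 * b ^ 2) ∧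
      |((4 * a ^ 3 - 27 * b ^ 2 : ℤ) : ℝ)| ≤
        C * |((PT a0 b0 (φ (a, b)).1 (φ (a, b)).2 : ℤ) : ℝ)| ^ 3 ∧
      max (|(a : ℝ)| ^ 3) ((b : ℝ) ^ 2) ≤
        C * (max |((φ (a, b)).1 : ℝ)| |((φ (a, b)).2 : ℝ)|) ^ 12 ∧
      (∀ H : ℝ, 0 ≤ H → |(a : ℝ)| ≤ H ^ 4 → |(b : ℝ)| ≤ H ^ 6 →
        max |((φ (a, b)).1 : ℝ)| |((φ (a, b)).2 : ℝ)| ≤ C * H) ∧
      ∀ a' b' : ℤ, 4 * a' ^ 3 - 27 * b' ^ 2 ≠ 0 → (∀ (u : ℚ) (a'' b'' : ℤ), u ≠ 0 →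
          (a'' : ℚ) = u ^ 4 * a' → (b'' : ℚ) = u ^ 6 * b' →
          |4 * a' ^ 3 - 27 * b' ^ 2| ≤ |4 * a'' ^ 3 - 27 * b'' ^ 2|) →
        InPencil a0 b0 a' b' → φ (a, b) = φ (a', b') → a = a' ∧ b = b'

end Pool.Agent.W4.QD
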