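import Pool.Agent.W4.VC.Stms

/-!
# Project QD: divisors on the projective line whose points have degree at least three

`K` is a number field of degree `d`, `θ` an integer of `K` with `K = ℚ(θ)`, and
`NF θ u v` is the norm of `u - v θ`, a binary form of degree `d`.
-/

set_option autoImplicit false

namespace Pool.Agent.W4.QD

open NumberField Finset Polynomial Pool.Agent.W4.CF Pool.Agent.W4.VC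

/-- the norm form of `u - v θ` -/
noncomputable def NF {K : Type} [Field K] [NumberField K] (θ : 𝓞 K) (u v : ℤ) : ℤ :=
  Algebra.norm ℤ ((u : 𝓞 K) - v * θ)

/-- `θ` generates `K` -/
def Gen {K : Type} [Field K] [NumberField K] (θ : 𝓞 K) : Prop :=
  Algebra.adjoin ℚ {(θ : K)} = ⊤

/-- `i` is a multiple of the exponent of `𝓞 K / ℤ[θ]` -/
def IdxG {K : Type} [Field K] [NumberField K] (θ : 𝓞 K) (i : ℕ) : Prop :=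
  1 ≤ i ∧ ∀ α : 𝓞 K, ∃ g : ℤ[X], g.natDegree < Module.finrank ℚ K ∧ (i : 𝓞 K) * α = aeval θ g

/-- IDX: `ℤ[θ]` has finite index. -/
def S_IDX : Prop := ∀ (K : Type) [Field K] [NumberField K] (θ : 𝓞 K), Gen θ →
  ∃ i : ℕ, IdxG θ i

/-- IDEAL: the factorisation of `u - vθ`. -/
def S_IDEAL : Prop := ∀ (K : Type) [Field K] [NumberField K] (θ : 𝓞 K) (i : ℕ),
  Gen θ → IdxG θ i →
  ∀ (u v : ℤ) (c z k : ℕ), (∀ l : ℕ, l.Prime → l ∣ z → ¬ ((l : ℤ) ∣ u ∧ (l : ℤ) ∣ v)) →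
    1 ≤ c → 1 ≤ z → 1 ≤ k → Nat.Coprime z (i * c) → (NF θ u v).natAbs = c * z ^ k →
    ∃ 𝔠 𝔷 : Ideal (𝓞 K), Ideal.absNorm 𝔠 = c ∧ Ideal.absNorm 𝔷 = z ∧
      Ideal.span {(u : 𝓞 K) - v * θ} = 𝔠 * 𝔷 ^ k

/-- KROOT: the number of `k`-th roots modulo a large prime. -/
def S_KROOT : Prop := ∀ (K : Type) [Field K] [NumberField K], ∃ P0 : ℕ, ∀ p : ℕ, p.Prime →
  P0 < p → ∀ (k : ℕ), 1 ≤ k → ∀ (w : 𝓞 K) (s : Finset (𝓞 K)),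
    (∀ x ∈ s, (p : 𝓞 K) ∣ x ^ k - w) → (∀ x ∈ s, ∀ y ∈ s, (p : 𝓞 K) ∣ x - y → x = y) →
    s.card ≤ k ^ Module.finrank ℚ K

/-- PRM: primes in a short multiplicative range that do not divide a given number. -/
def S_PRM : Prop := ∀ (ε : ℝ) (r : ℕ), 0 < ε → ∃ C : ℝ, 0 < C ∧ ∀ (X : ℝ) (M : ℕ), 1 ≤ X → 1 ≤ M →
  ∃ P : Finset ℕ, P.card = r ∧ ∀ p ∈ P, p.Prime ∧ X < (p : ℝ) ∧ (p : ℝ) ≤ C * X * (M : ℝ) ^ ε ∧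
    ¬ p ∣ M

/-- the points of the curve -/
def OnC {K : Type} [Field K] [NumberField K] (θ τ : 𝓞 K) (k : ℕ) (δ : 𝓞 K) : Prop :=
  ∃ (n a b : ℤ), n ≠ 0 ∧ (n : 𝓞 K) * (τ * δ ^ k) = a + b * θ

/-- DET: determinants of congruent points of the curve are divisible by `p ^ 3`. -/
def S_DET : Prop := ∀ (K : Type) [Field K] [NumberField K] (θ : 𝓞 K) (i : ℕ), Gen θ → IdxG θ i →
  3 ≤ Module.finrank ℚ K →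
  ∀ (τ : 𝓞 K) (k p : ℕ), 1 ≤ k → p.Prime → ¬ p ∣ i → ¬ p ∣ k → ¬ (p : ℤ) ∣ Algebra.norm ℤ τ →
    ∀ δ : Fin 3 → 𝓞 K, (∀ a, OnC θ τ k (δ a)) → (∀ a, ¬ (p : ℤ) ∣ Algebra.norm ℤ (δ a)) →
      (∀ a, ∃ μ : ℤ, ¬ (p : ℤ) ∣ μ ∧ (p : 𝓞 K) ∣ δ a - μ * δ 0) →
      ∀ ℓ : Fin 3 → (𝓞 K →+ ℤ), (p : ℤ) ^ 3 ∣ Matrix.det (Matrix.of fun a b => ℓ a (δ b))

/-- RANK: points of the curve any three of which are linearly dependent. -/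
def S_RANK : Prop := ∀ (K : Type) [Field K] [NumberField K] (θ : 𝓞 K), Gen θ →
  3 ≤ Module.finrank ℚ K → ∀ (τ : 𝓞 K) (k : ℕ), 2 ≤ k → τ ≠ 0 → ∀ s : Finset (𝓞 K),
    (∀ δ ∈ s, δ ≠ 0 ∧ OnC θ τ k δ) →
    (∀ δ ∈ s, ∀ δ' ∈ s, ∀ a b : ℤ, a ≠ 0 → (a : 𝓞 K) * δ = b * δ' → δ = δ') →
    (∀ δ : Fin 3 → 𝓞 K, (∀ a, δ a ∈ s) → ∀ ℓ : Fin 3 → (𝓞 K →+ ℤ),
      Matrix.det (Matrix.of fun a b => ℓ a (δ b)) = 0) →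
    s.card ≤ k

/-- COORD: coordinates of integers of bounded size, and conversely. -/
def S_COORD : Prop := ∀ (K : Type) [Field K] [NumberField K],
  ∃ (C : ℝ), 1 ≤ C ∧ ∃ ℓ : Fin (Module.finrank ℚ K) → (𝓞 K →+ ℤ),
    (∀ (δ : 𝓞 K) (B : ℝ), 0 ≤ B → (∀ σ : K →+* ℂ, ‖σ (δ : K)‖ ≤ B) → ∀ j, |(ℓ j δ : ℝ)| ≤ C * B) ∧
    (∀ (δ : 𝓞 K) (m : ℤ), (∀ j, m ∣ ℓ j δ) → (m : 𝓞 K) ∣ δ) ∧
    (∀ f : 𝓞 K →+ ℤ, ∃ c : Fin (Module.finrank ℚ K) → ℤ, ∀ δ, f δ = ∑ j, c j * ℓ j δ)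

/-- CLASS: the number of projective classes modulo `p` of points of the curve. -/
def S_CLASS : Prop := ∀ (K : Type) [Field K] [NumberField K] (θ : 𝓞 K) (i : ℕ), Gen θ → IdxG θ i →
  ∃ P0 : ℕ, ∀ (τ : 𝓞 K) (k p : ℕ), 1 ≤ k → p.Prime → P0 < p →
    ¬ (p : ℤ) ∣ Algebra.norm ℤ τ → ∀ s : Finset (𝓞 K),
      (∀ δ ∈ s, OnC θ τ k δ ∧ ¬ (p : ℤ) ∣ Algebra.norm ℤ δ) →
      (∀ δ ∈ s, ∀ δ' ∈ s, ∀ μ : ℤ, (p : 𝓞 K) ∣ δ - μ * δ' → δ = δ') →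
      s.card ≤ 2 * k ^ Module.finrank ℚ K * p

/-- CRV: the number of points of bounded size on the curve. -/
def S_CRV : Prop := ∀ (K : Type) [Field K] [NumberField K] (θ : 𝓞 K), Gen θ →
  3 ≤ Module.finrank ℚ K → ∀ (k : ℕ) (ε : ℝ), 2 ≤ k → 0 < ε → ∃ C : ℝ, 0 < C ∧
  ∀ (τ : 𝓞 K) (B : ℝ), τ ≠ 0 → 1 ≤ B → ∀ s : Finset (𝓞 K),
    (∀ δ ∈ s, δ ≠ 0 ∧ OnC θ τ k δ ∧ ∀ σ : K →+* ℂ, ‖σ (δ : K)‖ ≤ B) →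
    (s.card : ℝ) ≤ C * (B * ((Algebra.norm ℤ τ).natAbs : ℝ)) ^ ε * B

/-- property (B) of the form `NF θ` -/
def HBG {K : Type} [Field K] [NumberField K] (θ : 𝓞 K) (i : ℕ) : Prop :=
  ∀ (k : ℕ) (ε : ℝ), 2 ≤ k → 0 < ε →
  ∃ C : ℝ, 0 < C ∧ ∀ Y Z : ℝ, 1 ≤ Y → 1 ≤ Z → ∀ c : ℕ, 1 ≤ c → ∀ s : Finset (ℤ × ℤ),
    (∀ p ∈ s, |(p.1 : ℝ)| ≤ Y ∧ |(p.2 : ℝ)| ≤ Y ∧
      ∃ z : ℕ, 1 ≤ z ∧ (z : ℝ) ≤ Z ∧ Nat.Coprime z (i * c) ∧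
        (∀ l : ℕ, l.Prime → l ∣ z → ¬ ((l : ℤ) ∣ p.1 ∧ (l : ℤ) ∣ p.2)) ∧
        (NF θ p.1 p.2).natAbs = c * z ^ k) →
    (s.card : ℝ) ≤ C * (Y * c) ^ ε * Z ^ ((1 : ℝ) / Module.finrank ℚ K)

/-- B: property (B) for every generator of a field of degree at least three. -/
def S_BG : Prop := ∀ (K : Type) [Field K] [NumberField K] (θ : 𝓞 K), Gen θ →
  3 ≤ Module.finrank ℚ K → ∃ i : ℕ, 1 ≤ i ∧ HBG θ i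

/-- NRM: the norm form is the form of the minimal polynomial, without multiple factors. -/
def S_NRM : Prop := ∀ (K : Type) [Field K] [NumberField K] (θ : 𝓞 K), Gen θ →
  Sqf (minpoly ℤ θ) (Module.finrank ℚ K) ∧
  (∀ u v : ℤ, NF θ u v = hom (minpoly ℤ θ) (Module.finrank ℚ K) u v) ∧
  (2 ≤ Module.finrank ℚ K → ∀ u v : ℤ, NF θ u v = 0 → u = 0 ∧ v = 0)

/-- the exponent function -/
noncomputable def BdD (d : ℕ) (Y R : ℝ) : ℝ :=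
  min (R ^ (((d : ℝ) ^ 2 + 2 * d - 2) / (d * (2 * d - 1))))
    (max (R * Y ^ (-((((d : ℝ) - 1) * (d - 2)) / (2 * d - 1))))
      (R ^ (1 / (4 * (d : ℝ) - 3)) * Y ^ ((d : ℝ) * (d - 1) / (4 * d - 3))))

/-- SEL: the choice between the two methods. -/
def S_SEL : Prop := ∀ (d : ℕ) (c0 c1 ε : ℝ), 3 ≤ d → 0 < c0 → 0 < c1 → 0 < ε →
  ∃ (C : ℝ) (k0 : ℕ), 0 < C ∧
  ∀ (m f : ℕ) (Y R : ℝ), 1 ≤ m → 1 ≤ f → 1 ≤ Y → 1 ≤ R → (f : ℝ) ≤ c0 * Y ^ d →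
    (radp m f : ℝ) ≤ R → R ≤ c1 * Y ^ (d - 2) →
    (∃ q : ℕ, q ∣ f ∧ (radp m q : ℝ) * max 1 ((f : ℝ) / (Y ^ (d - 2) * q)) ≤
      C * Y ^ ε * BdD d Y R) ∨
    (∃ k : ℕ, 2 ≤ k ∧ k ≤ k0 ∧
      (radp m f : ℝ) ≤ C * Y ^ ε * BdD d Y R * (fk m f k : ℝ) ^ (1 - 1 / (d : ℝ)))

/-- TR: the number of pairs in a dyadic box whose value has a small radical. -/
def S_TR : Prop := ∀ (K : Type) [Field K] [NumberField K] (θ : 𝓞 K), Gen θ →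
  3 ≤ Module.finrank ℚ K →
  ∃ i : ℕ, 1 ≤ i ∧ ∀ c1 ε : ℝ, 0 < c1 → 0 < ε → ∃ C : ℝ, 0 < C ∧
  ∀ (m : ℕ) (Y R : ℝ), 1 ≤ m → i ∣ m → 1 ≤ Y → 1 ≤ R →
    R ≤ c1 * Y ^ (Module.finrank ℚ K - 2) →
    ∀ s : Finset (ℤ × ℤ), (∀ p ∈ s, Dy Y p ∧ (radp m (NF θ p.1 p.2).natAbs : ℝ) ≤ R) →
    (s.card : ℝ) ≤ C * ((m : ℝ) * Y) ^ ε * BdD (Module.finrank ℚ K) Y R

/-- BIGG: few values of an irreducible form are divisible by the square of a large prime. -/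
def S_BIGG : Prop := ∀ (f : ℤ[X]) (n : ℕ), 3 ≤ n → Irreducible (f.map (Int.castRingHom ℚ)) →
  f.natDegree = n → ∀ (E ε : ℝ), 0 < ε → (n : ℝ) ^ 2 / (3 * n - 1) ≤ E →
  ∃ C : ℝ, 0 < C ∧ ∀ Y : ℝ, 1 ≤ Y → ∀ s : Finset (ℤ × ℤ),
    (∀ p ∈ s, Dy Y p ∧ hom f n p.1 p.2 ≠ 0 ∧ ∃ l : ℕ, l.Prime ∧
      C * Y ^ E < (l : ℝ) ∧ (l : ℤ) ^ 2 ∣ hom f n p.1 p.2) →
    (s.card : ℝ) ≤ C * Y ^ (E + ε)

end Pool.Agent.W4.QD
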