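import Pool.Agent.W4.QD.Num
import Pool.Agent.W4.CF.Stms4
import Pool.Agent.W928.QD.BIGG

/-!
# Project QD: rational points close to conjugate points of degree at least three
-/

set_option autoImplicit false

namespace Pool.Agent.W4.QD

open NumberField IsDedekindDomain Finset Polynomial Pool.Agent.W4.CF Pool.Agent.W4.VC

/-- the rational exceptional points -/
def EQ {K : Type} [Field K] [NumberField K] (T : Set (HeightOneSpectrum (RingOfIntegers K)))
    {q : ℕ} (α : Fin q → K × K) (κ c0 B : ℝ) : Set ℚ :=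
  {x : ℚ | (∀ l, (x : K) * (α l).2 - 1 * (α l).1 ≠ 0) ∧ Real.exp (heightK (x : K)) ≤ B ∧
    countingK T α (x : K) < (q - κ) * heightK (x : K) + c0}

/-- the coordinates of `a x` compared with those of `x` -/
theorem scale (a : ℤ) (ha : a ≠ 0) (x : ℚ) : ∃ g : ℤ, g ∣ a ∧ g ≠ 0 ∧
    g * ((a : ℚ) * x).num = a * x.num ∧ g * (((a : ℚ) * x).den : ℤ) = x.den := by
  set y : ℚ := (a : ℚ) * x with hy
  have hxd : (x.den : ℤ) ≠ 0 := by exact_mod_cast x.den_nz
  have hyd : (y.den : ℤ) ≠ 0 := by exact_mod_cast y.den_nz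
  have hxq : (x.den : ℚ) ≠ 0 := by exact_mod_cast x.den_nz
  have hyq : (y.den : ℚ) ≠ 0 := by exact_mod_cast y.den_nz
  have h1 : y.num * (x.den : ℤ) = a * x.num * (y.den : ℤ) := by
    have h2 : (y.num : ℚ) / y.den = a * (x.num / x.den) := by
      rw [Rat.num_div_den, Rat.num_div_den]
    have h3 : (y.num : ℚ) * x.den = a * x.num * y.den := by
      field_simp at h2
      linear_combination h2
    exact_mod_cast h3
  have hcy : IsCoprime y.num (y.den : ℤ) := by
    rw [Int.isCoprime_iff_gcd_eq_one]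
    exact y.reduced
  have hcx : IsCoprime x.num (x.den : ℤ) := by
    rw [Int.isCoprime_iff_gcd_eq_one]
    exact x.reduced
  have h2 : (y.den : ℤ) ∣ (x.den : ℤ) :=
    hcy.symm.dvd_of_dvd_mul_left ⟨a * x.num, by rw [h1]; ring⟩
  obtain ⟨g, hg⟩ := h2
  have h3 : y.num * g = a * x.num := by
    have : (y.den : ℤ) * (y.num * g) = (y.den : ℤ) * (a * x.num) := by
      rw [hg] at h1
      linear_combination h1
    exact mul_left_cancel₀ hyd this
  have hg0 : g ≠ 0 := by
    rintro rfl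
    rw [mul_zero] at hg
    exact hxd hg
  refine ⟨g, ?_, hg0, by rw [← h3]; ring, by rw [hg]; ring⟩
  have h4 : IsCoprime g x.num := by
    have : g ∣ (x.den : ℤ) := ⟨y.den, by rw [hg]; ring⟩
    exact (hcx.symm).of_isCoprime_of_dvd_left this
  exact h4.dvd_of_dvd_mul_right ⟨y.num, by rw [← h3]; ring⟩

theorem conj_main (hTR : S_TR) (hN : Pool.Agent.W4.QD.S_NRM) (hC : S_CNTQ) (hH : S_HTQ)
    (K : Type) [Field K] [NumberField K] (T : Set (HeightOneSpectrum (RingOfIntegers K)))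
    (hT : T.Finite) (q : ℕ) (hq : 3 ≤ q) (α : Fin q → K × K) (hα0 : ∀ i, α i ≠ 0)
    (hα : ∀ i j, i ≠ j → (α i).1 * (α j).2 - (α i).2 * (α j).1 ≠ 0)
    (f : ℤ[X]) (hirr : Irreducible (f.map (Int.castRingHom ℚ))) (hdeg : f.natDegree = q)
    (hF : ∀ i, ∑ j ∈ range (q + 1), (f.coeff j : K) * (α i).1 ^ j * (α i).2 ^ (q - j) = 0)
    (κ c0 δ : ℝ) (h2 : 2 ≤ κ) (h3 : κ ≤ q) (hδ : 0 < δ) :
    ∃ C : ℝ, 0 < C ∧ ∀ B : ℝ, 1 ≤ B → (EQ T α κ c0 B).Finite ∧
      ((EQ T α κ c0 B).ncard : ℝ) ≤ C * B ^ (eD q (q - κ) + δ) := by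
  classical
  obtain ⟨L, _, _, θ, hG, hfr, hNF⟩ :=
    Pool.Agent.W928.QD.exists_theta hN f q (by omega) hirr hdeg
  have hf0 : f ≠ 0 := by
    rintro rfl
    rw [natDegree_zero] at hdeg
    omega
  set a0 : ℤ := f.leadingCoeff with ha0
  have ha00 : a0 ≠ 0 := leadingCoeff_ne_zero.mpr hf0
  have ha1 : (1 : ℝ) ≤ |(a0 : ℝ)| := by
    have : (1 : ℤ) ≤ |a0| := Int.one_le_abs ha00
    exact_mod_cast this
  obtain ⟨i, hi, hcount⟩ := qcount hTR L θ hG (by rw [hfr]; exact hq)
  obtain ⟨m, hm, hcnt⟩ := hC K T hT q α hα0 hα f hf0 hdeg.le hF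
  set M : ℕ := m * a0.natAbs * i with hM
  have hM1 : 1 ≤ M := by
    have h1 : 0 < a0.natAbs := Int.natAbs_pos.mpr ha00
    have : 0 < m * a0.natAbs * i := by positivity
    omega
  set lam : ℝ := q - κ with hlam
  have hlam0 : 0 ≤ lam := by rw [hlam]; linarith
  set C0 : ℝ := max 1 (Real.exp c0 * |(a0 : ℝ)| ^ lam) with hC0
  obtain ⟨C, hC, hmain⟩ := hcount M C0 lam δ hM1 ⟨m * a0.natAbs, by rw [hM]; ring⟩
    (le_max_left _ _) hlam0 (by rw [hfr, hlam]; linarith) hδ
  rw [hfr] at hmain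
  have he0 : 0 ≤ eD q lam := eD_nonneg q hq lam hlam0
  refine ⟨C * |(a0 : ℝ)| ^ (eD q lam + δ), by positivity, fun B hB => ?_⟩
  let g : ℚ → ℤ × ℤ := fun x => (((a0 : ℚ) * x).num, (((a0 : ℚ) * x).den : ℤ))
  have hinj : Function.Injective g := by
    intro x y h
    have h1 : ((a0 : ℚ) * x).num = ((a0 : ℚ) * y).num := congrArg Prod.fst h
    have h2 : (((a0 : ℚ) * x).den : ℤ) = (((a0 : ℚ) * y).den : ℤ) := congrArg Prod.snd h
    have h3 : (a0 : ℚ) * x = (a0 : ℚ) * y := Rat.ext h1 (by exact_mod_cast h2)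
    exact mul_left_cancel₀ (by exact_mod_cast ha00) h3
  -- properties of an exceptional point
  have key : ∀ x ∈ EQ T α κ c0 B, IsCoprime (g x).1 (g x).2 ∧
      max |((g x).1 : ℝ)| |((g x).2 : ℝ)| ≤ |(a0 : ℝ)| * B ∧
      (radp M (NF θ (g x).1 (g x).2).natAbs : ℝ) ≤
        C0 * (max |((g x).1 : ℝ)| |((g x).2 : ℝ)|) ^ lam := by
    rintro x ⟨-, hx2, hx3⟩
    obtain ⟨r, hr1, hr2, hr3, hr4⟩ := scale a0 ha00 x
    set U : ℤ := ((a0 : ℚ) * x).num with hU
    set V : ℤ := (((a0 : ℚ) * x).den : ℤ) with hV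
    have hgx : g x = (U, V) := rfl
    rw [hgx]
    simp only
    have hcop : IsCoprime x.num (x.den : ℤ) := by
      rw [Int.isCoprime_iff_gcd_eq_one]
      exact x.reduced
    have hcopU : IsCoprime U V := by
      rw [Int.isCoprime_iff_gcd_eq_one]
      exact ((a0 : ℚ) * x).reduced
    have hden : (x.den : ℤ) ≠ 0 := by exact_mod_cast x.den_nz
    have hxeq : (x : K) = ((x.num : ℤ) : K) / (((x.den : ℤ)) : K) := by
      push_cast
      exact (Rat.cast_def x)
    have hh : heightK (x : K) = Real.log (max |(x.num : ℝ)| |((x.den : ℤ) : ℝ)|) := by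
      rw [hxeq]
      exact hH K _ _ hcop hden
    set mx : ℝ := max |(x.num : ℝ)| |((x.den : ℤ) : ℝ)| with hmx
    have hmaxpos : 0 < mx := by
      refine lt_of_lt_of_le ?_ (le_max_right _ _)
      have : ((x.den : ℤ) : ℝ) ≠ 0 := by exact_mod_cast x.den_nz
      positivity
    have hr1' : (1 : ℝ) ≤ |(r : ℝ)| := by
      have : (1 : ℤ) ≤ |r| := Int.one_le_abs hr2
      exact_mod_cast this
    have hra : |(r : ℝ)| ≤ |(a0 : ℝ)| := by
      have : |r| ≤ |a0| := Int.le_of_dvd (abs_pos.mpr ha00) ((abs_dvd_abs r a0).mpr hr1)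
      exact_mod_cast this
    have hr3' : (r : ℝ) * U = a0 * x.num := by exact_mod_cast hr3
    have hr4' : (r : ℝ) * V = ((x.den : ℤ) : ℝ) := by exact_mod_cast hr4
    have eU : |(r : ℝ)| * |(U : ℝ)| = |(a0 : ℝ)| * |(x.num : ℝ)| := by
      rw [← abs_mul, hr3', abs_mul]
    have eV : |(r : ℝ)| * |(V : ℝ)| = |((x.den : ℤ) : ℝ)| := by
      rw [← abs_mul, hr4']
    set MU : ℝ := max |(U : ℝ)| |(V : ℝ)| with hMU
    have hMU0 : 0 ≤ MU := le_max_of_le_left (abs_nonneg _)
    have up : MU ≤ |(a0 : ℝ)| * mx := by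
      apply max_le
      · calc |(U : ℝ)| ≤ |(r : ℝ)| * |(U : ℝ)| := le_mul_of_one_le_left (abs_nonneg _) hr1'
          _ = |(a0 : ℝ)| * |(x.num : ℝ)| := eU
          _ ≤ _ := by gcongr; exact le_max_left _ _
      · calc |(V : ℝ)| ≤ |(r : ℝ)| * |(V : ℝ)| := le_mul_of_one_le_left (abs_nonneg _) hr1'
          _ = |((x.den : ℤ) : ℝ)| := eV
          _ ≤ mx := le_max_right _ _
          _ ≤ _ := le_mul_of_one_le_left hmaxpos.le ha1
    have low : mx ≤ |(a0 : ℝ)| * MU := by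
      apply max_le
      · calc |(x.num : ℝ)| ≤ |(a0 : ℝ)| * |(x.num : ℝ)| := le_mul_of_one_le_left (abs_nonneg _) ha1
          _ = |(r : ℝ)| * |(U : ℝ)| := eU.symm
          _ ≤ |(a0 : ℝ)| * MU := by gcongr; exact le_max_left _ _
      · calc |((x.den : ℤ) : ℝ)| = |(r : ℝ)| * |(V : ℝ)| := eV.symm
          _ ≤ |(a0 : ℝ)| * MU := by gcongr; exact le_max_right _ _
    -- the norm form
    have hnf : r ^ q * NF θ U V = a0 ^ (q - 1) * hom f q x.num (x.den : ℤ) := by
      rw [← hNF x.num (x.den : ℤ), ← hr3, ← hr4]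
      unfold NF
      have e : ((((r * U : ℤ)) : 𝓞 L) - ((r * V : ℤ) : 𝓞 L) * θ) =
          algebraMap ℤ (𝓞 L) r * ((U : 𝓞 L) - V * θ) := by
        rw [eq_intCast]
        push_cast
        ring
      rw [e, map_mul, Algebra.norm_algebraMap]
      congr 2
      rw [← hfr]
      exact (RingOfIntegers.rank L).symm
    have hv0 : V ≠ 0 := by
      intro h0
      rw [h0, mul_zero] at hr4
      exact hden hr4.symm
    have hnf0 : NF θ U V ≠ 0 := fun h0 => hv0 ((hN L θ hG).2.2 (by rw [hfr]; omega) U V h0).2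
    have hhom0 : hom f q x.num (x.den : ℤ) ≠ 0 := by
      intro h0
      rw [h0, mul_zero] at hnf
      rcases mul_eq_zero.mp hnf with h | h
      · exact hr2 (pow_eq_zero_iff (by omega) |>.mp h)
      · exact hnf0 h
    refine ⟨hcopU, ?_, ?_⟩
    · rw [hh, Real.exp_log hmaxpos] at hx2
      exact up.trans (by gcongr)
    · have h1 := hcnt x.num (x.den : ℤ) hcop hden hhom0
      rw [← hxeq] at h1
      rw [hh] at hx3
      have hsub : (NF θ U V).natAbs.primeFactors.filter (fun p => ¬ p ∣ M) ⊆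
          (hom f q x.num (x.den : ℤ)).natAbs.primeFactors.filter (fun p => ¬ p ∣ m) := by
        intro p hp
        rw [mem_filter] at hp ⊢
        have hpp := Nat.prime_of_mem_primeFactors hp.1
        have hpZ := Nat.prime_iff_prime_int.mp hpp
        have hd : (p : ℤ) ∣ NF θ U V := Int.natCast_dvd.mpr (Nat.dvd_of_mem_primeFactors hp.1)
        have hpa : ¬ (p : ℤ) ∣ a0 := fun h => hp.2 (by
          rw [hM]
          have h' : p ∣ a0.natAbs := Int.natCast_dvd.mp h
          exact Dvd.dvd.mul_right (Dvd.dvd.mul_left h' m) i)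
        have hd2 : (p : ℤ) ∣ a0 ^ (q - 1) * hom f q x.num (x.den : ℤ) := by
          rw [← hnf]
          exact Dvd.dvd.mul_left hd _
        have hd3 : (p : ℤ) ∣ hom f q x.num (x.den : ℤ) := by
          rcases hpZ.dvd_or_dvd hd2 with h | h
          · exact absurd (hpZ.dvd_of_dvd_pow h) hpa
          · exact h
        refine ⟨?_, ?_⟩
        · rw [Nat.mem_primeFactors]
          exact ⟨hpp, Int.natCast_dvd.mp hd3, Int.natAbs_ne_zero.mpr hhom0⟩
        · intro h
          apply hp.2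
          rw [hM, mul_assoc]
          exact Dvd.dvd.mul_right h _
      have h4 : Real.log (radp M (NF θ U V).natAbs : ℝ) ≤ lam * Real.log mx + c0 := by
        unfold radp
        rw [Nat.cast_prod, Real.log_prod (fun p hp => by
          have := (Nat.prime_of_mem_primeFactors (mem_filter.mp hp).1).ne_zero
          exact_mod_cast this)]
        calc ∑ p ∈ (NF θ U V).natAbs.primeFactors.filter (fun p => ¬ p ∣ M), Real.log (p : ℝ) ≤
              ∑ p ∈ (hom f q x.num (x.den : ℤ)).natAbs.primeFactors.filter (fun p => ¬ p ∣ m),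
                Real.log (p : ℝ) := by
              apply sum_le_sum_of_subset_of_nonneg hsub
              intro p hp _
              have := (Nat.prime_of_mem_primeFactors (mem_filter.mp hp).1).one_lt
              apply Real.log_nonneg
              exact_mod_cast this.le
          _ ≤ _ := h1
          _ ≤ _ := by linarith
      have hrad0 : (0 : ℝ) < (radp M (NF θ U V).natAbs : ℝ) := by
        exact_mod_cast radp_pos' _ _
      calc (radp M (NF θ U V).natAbs : ℝ) = Real.exp (Real.log (radp M (NF θ U V).natAbs : ℝ)) :=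
            (Real.exp_log hrad0).symm
        _ ≤ Real.exp (lam * Real.log mx + c0) := Real.exp_le_exp.mpr h4
        _ = Real.exp c0 * mx ^ lam := by
            rw [Real.exp_add, Real.rpow_def_of_pos hmaxpos, mul_comm (Real.log mx) lam]
            ring
        _ ≤ Real.exp c0 * (|(a0 : ℝ)| * MU) ^ lam := by gcongr
        _ = Real.exp c0 * |(a0 : ℝ)| ^ lam * MU ^ lam := by
            rw [Real.mul_rpow (abs_nonneg _) hMU0]
            ring
        _ ≤ C0 * MU ^ lam := by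
            gcongr
            exact le_max_right _ _
  -- finiteness
  have hfin : (EQ T α κ c0 B).Finite := by
    refine Set.Finite.of_finite_image ?_ hinj.injOn
    refine ((Finset.finite_toSet (Icc (-⌈|(a0 : ℝ)| * B⌉) (⌈|(a0 : ℝ)| * B⌉) ×ˢ
      Icc (-⌈|(a0 : ℝ)| * B⌉) (⌈|(a0 : ℝ)| * B⌉)))).subset ?_
    rintro _ ⟨x, hx, rfl⟩
    obtain ⟨-, hb, -⟩ := key x hx
    have b1 : |((g x).1 : ℝ)| ≤ (⌈|(a0 : ℝ)| * B⌉ : ℝ) :=
      ((le_max_left _ _).trans hb).trans (Int.le_ceil _)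
    have b2 : |((g x).2 : ℝ)| ≤ (⌈|(a0 : ℝ)| * B⌉ : ℝ) :=
      ((le_max_right _ _).trans hb).trans (Int.le_ceil _)
    rw [Finset.mem_coe, mem_product, mem_Icc, mem_Icc]
    refine ⟨abs_le.mp ?_, abs_le.mp ?_⟩
    · exact_mod_cast b1
    · exact_mod_cast b2
  refine ⟨hfin, ?_⟩
  rw [Set.ncard_eq_toFinset_card _ hfin, ← card_image_of_injective _ hinj]
  have hmm := hmain (|(a0 : ℝ)| * B) (by nlinarith) (hfin.toFinset.image g) (by
    intro p hp
    obtain ⟨x, hx, rfl⟩ := mem_image.mp hp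
    rw [Set.Finite.mem_toFinset] at hx
    exact key x hx)
  refine hmm.trans (le_of_eq ?_)
  rw [Real.mul_rpow (abs_nonneg _) (by linarith)]
  ring

end Pool.Agent.W4.QD
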