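import Pool.Agent.W21.QD.PEN
import Pool.Agent.W4.QD.Stms3

/-!
# Minimal models in the pencil, with the bound for the height
(the proof is that of `Pool.Agent.W21.QD.PEN`, by helper21, with one more clause)
-/

set_option autoImplicit false

namespace Pool.Agent.W4.QD

open Pool.Agent.W21.QD

theorem mono_le (c s t M : ℝ) (i j : ℕ) (hs : |s| ≤ M) (ht : |t| ≤ M) :
    |c * s ^ i * t ^ j| ≤ |c| * M ^ (i + j) := by
  have hM : 0 ≤ M := (abs_nonneg s).trans hs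
  rw [abs_mul, abs_mul, abs_pow, abs_pow, mul_assoc, pow_add]
  gcongr

theorem pa_size (a0 b0 : ℤ) : ∃ c : ℝ, 0 ≤ c ∧ ∀ s t : ℤ,
    |((PA a0 b0 s t : ℤ) : ℝ)| ≤ c * max |(s : ℝ)| |(t : ℝ)| ^ 4 := by
  refine ⟨|(a0 : ℝ)| + |18 * (b0 : ℝ)| + |18 * (a0 : ℝ) ^ 2| + |54 * (a0 : ℝ) * b0| +
    |243 * (b0 : ℝ) ^ 2 - 27 * (a0 : ℝ) ^ 3|, by positivity, fun s t => ?_⟩
  set M := max |(s : ℝ)| |(t : ℝ)| with hM
  have hs : |(s : ℝ)| ≤ M := le_max_left _ _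
  have ht : |(t : ℝ)| ≤ M := le_max_right _ _
  have e : ((PA a0 b0 s t : ℤ) : ℝ) = (a0 : ℝ) * s ^ 4 * t ^ 0 + (18 * (b0 : ℝ)) * s ^ 3 * t ^ 1 +
      (18 * (a0 : ℝ) ^ 2) * s ^ 2 * t ^ 2 + (54 * (a0 : ℝ) * b0) * s ^ 1 * t ^ 3 +
      (243 * (b0 : ℝ) ^ 2 - 27 * (a0 : ℝ) ^ 3) * s ^ 0 * t ^ 4 := by
    unfold PA
    push_cast
    ring
  rw [e]
  refine (abs_add_le _ _).trans ?_
  have h0 := mono_le (a0 : ℝ) s t M 4 0 hs ht
  have h1 := mono_le (18 * (b0 : ℝ)) s t M 3 1 hs ht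
  have h2 := mono_le (18 * (a0 : ℝ) ^ 2) s t M 2 2 hs ht
  have h3 := mono_le (54 * (a0 : ℝ) * b0) s t M 1 3 hs ht
  have h4 := mono_le (243 * (b0 : ℝ) ^ 2 - 27 * (a0 : ℝ) ^ 3) s t M 0 4 hs ht
  have g1 := abs_add_le ((a0 : ℝ) * s ^ 4 * t ^ 0 + (18 * (b0 : ℝ)) * s ^ 3 * t ^ 1 +
      (18 * (a0 : ℝ) ^ 2) * s ^ 2 * t ^ 2) ((54 * (a0 : ℝ) * b0) * s ^ 1 * t ^ 3)
  have g2 := abs_add_three ((a0 : ℝ) * s ^ 4 * t ^ 0) ((18 * (b0 : ℝ)) * s ^ 3 * t ^ 1)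
    ((18 * (a0 : ℝ) ^ 2) * s ^ 2 * t ^ 2)
  norm_num at h0 h1 h2 h3 h4 g1 g2 ⊢
  linarith

theorem pb_size (a0 b0 : ℤ) : ∃ c : ℝ, 0 ≤ c ∧ ∀ s t : ℤ,
    |((PB a0 b0 s t : ℤ) : ℝ)| ≤ c * max |(s : ℝ)| |(t : ℝ)| ^ 6 := by
  refine ⟨|(b0 : ℝ)| + |4 * (a0 : ℝ) ^ 2| + |45 * (a0 : ℝ) * b0| + |270 * (b0 : ℝ) ^ 2| +
    |135 * (a0 : ℝ) ^ 2 * b0| + |108 * (a0 : ℝ) ^ 4 - 486 * a0 * (b0 : ℝ) ^ 2| +
    |243 * (a0 : ℝ) ^ 3 * b0 - 1458 * (b0 : ℝ) ^ 3|, by positivity, fun s t => ?_⟩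
  set M := max |(s : ℝ)| |(t : ℝ)| with hM
  have hs : |(s : ℝ)| ≤ M := le_max_left _ _
  have ht : |(t : ℝ)| ≤ M := le_max_right _ _
  have e : ((PB a0 b0 s t : ℤ) : ℝ) = ((b0 : ℝ) * s ^ 6 * t ^ 0 + (4 * (a0 : ℝ) ^ 2) * s ^ 5 * t ^ 1 +
      (45 * (a0 : ℝ) * b0) * s ^ 4 * t ^ 2) + ((270 * (b0 : ℝ) ^ 2) * s ^ 3 * t ^ 3 +
      (135 * (a0 : ℝ) ^ 2 * b0) * s ^ 2 * t ^ 4) +
      ((108 * (a0 : ℝ) ^ 4 - 486 * a0 * (b0 : ℝ) ^ 2) * s ^ 1 * t ^ 5 +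
      (243 * (a0 : ℝ) ^ 3 * b0 - 1458 * (b0 : ℝ) ^ 3) * s ^ 0 * t ^ 6) := by
    unfold PB
    push_cast
    ring
  rw [e]
  have h0 := mono_le (b0 : ℝ) s t M 6 0 hs ht
  have h1 := mono_le (4 * (a0 : ℝ) ^ 2) s t M 5 1 hs ht
  have h2 := mono_le (45 * (a0 : ℝ) * b0) s t M 4 2 hs ht
  have h3 := mono_le (270 * (b0 : ℝ) ^ 2) s t M 3 3 hs ht
  have h4 := mono_le (135 * (a0 : ℝ) ^ 2 * b0) s t M 2 4 hs ht
  have h5 := mono_le (108 * (a0 : ℝ) ^ 4 - 486 * a0 * (b0 : ℝ) ^ 2) s t M 1 5 hs ht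
  have h6 := mono_le (243 * (a0 : ℝ) ^ 3 * b0 - 1458 * (b0 : ℝ) ^ 3) s t M 0 6 hs ht
  refine (abs_add_three _ _ _).trans ?_
  have g2 := abs_add_three ((b0 : ℝ) * s ^ 6 * t ^ 0) ((4 * (a0 : ℝ) ^ 2) * s ^ 5 * t ^ 1)
    ((45 * (a0 : ℝ) * b0) * s ^ 4 * t ^ 2)
  have g3 := abs_add_le ((270 * (b0 : ℝ) ^ 2) * s ^ 3 * t ^ 3) ((135 * (a0 : ℝ) ^ 2 * b0) * s ^ 2 * t ^ 4)
  have g4 := abs_add_le ((108 * (a0 : ℝ) ^ 4 - 486 * a0 * (b0 : ℝ) ^ 2) * s ^ 1 * t ^ 5)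
    ((243 * (a0 : ℝ) ^ 3 * b0 - 1458 * (b0 : ℝ) ^ 3) * s ^ 0 * t ^ 6)
  simp only [show (6 + 0 : ℕ) = 6 from rfl] at h0 h1 h2 h3 h4 h5 h6
  linarith

theorem t_PEN2 : S_PEN2 := by
  intro a0 b0 hD
  obtain ⟨c, hc, hbez⟩ := bez_real a0 b0 hD
  obtain ⟨c4, hc4, hPA⟩ := pa_size a0 b0
  obtain ⟨c6, hc6, hPB⟩ := pb_size a0 b0
  set D : ℤ := 4 * a0 ^ 3 - 27 * b0 ^ 2 with hDdef
  have hD1 : (1 : ℝ) ≤ |(D : ℝ)| := by
    have : (1 : ℤ) ≤ |D| := Int.one_le_abs hD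
    exact_mod_cast this
  set K : ℝ := 243 * |(D : ℝ)| ^ 3 with hK
  have hK0 : 0 < K := by positivity
  refine ⟨6 * 243 * D.natAbs ^ 3, 1 + |(D : ℝ)| + 5 * c * K + c4 ^ 3 + c6 ^ 2, phi a0 b0, ?_, ?_, ?_⟩
  · have : 0 < D.natAbs := Int.natAbs_pos.2 hD
    have : 0 < D.natAbs ^ 3 := by positivity
    omega
  · have : 0 ≤ 5 * c * K := by positivity
    have : 0 ≤ c4 ^ 3 + c6 ^ 2 := by positivity
    linarith
  intro a b hd hmin hpen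
  obtain ⟨w, hR⟩ := phi_spec a0 b0 a b hpen hd
  set s := (phi a0 b0 (a, b)).1 with hs
  set t := (phi a0 b0 (a, b)).2 with ht
  have hdisc := rep_disc hR
  have hden0 : ((w.den : ℤ)) ≠ 0 := by exact_mod_cast w.den_nz
  have hT0 : PT a0 b0 s t ≠ 0 := by
    intro h
    rw [h] at hdisc
    have : (w.den : ℤ) ^ 12 * (4 * a ^ 3 - 27 * b ^ 2) = 0 := by rw [hdisc]; ring
    rcases mul_eq_zero.1 this with h1 | h1
    · exact hden0 (pow_eq_zero_iff (by norm_num) |>.1 h1)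
    · exact hd h1
  refine ⟨hR.2.1, hT0, ?_, ?_, ?_, ?_, ?_⟩
  · intro p hp hpm hpT
    have hpi : Prime (p : ℤ) := Nat.prime_iff_prime_int.1 hp
    constructor
    · by_contra hlt
      push Not at hlt
      have h2 := hp.two_le
      apply hpm
      have h23 : p = 2 ∨ p = 3 ∨ p = 4 := by omega
      rcases h23 with rfl | rfl | rfl
      · exact Dvd.dvd.mul_right (Dvd.dvd.mul_right (by norm_num) _) _
      · exact Dvd.dvd.mul_right (Dvd.dvd.mul_right (by norm_num) _) _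
      · exact absurd hp (by norm_num)
    · have h1 : (p : ℤ) ∣ (w.den : ℤ) ^ 12 * (4 * a ^ 3 - 27 * b ^ 2) := by
        rw [hdisc]
        exact Dvd.dvd.mul_left (Dvd.dvd.mul_left (dvd_pow hpT (by norm_num)) _) _
      rcases hpi.dvd_or_dvd h1 with h2 | h2
      · exfalso
        have h3 : (p : ℤ) ∣ (w.den : ℤ) := hpi.dvd_of_dvd_pow h2
        have h4 : (p : ℤ) ∣ 243 * D ^ 3 := (dvd_pow h3 (by norm_num)).trans (den_dvd hR)
        apply hpm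
        have h5 : p ∣ (243 * D ^ 3).natAbs := Int.natCast_dvd.1 h4
        rw [Int.natAbs_mul, Int.natAbs_pow] at h5
        have e : 6 * 243 * D.natAbs ^ 3 = 6 * (243 * D.natAbs ^ 3) := by ring
        rw [e]
        exact Dvd.dvd.mul_left h5 _
      · exact h2
  · have h1 := hmin w⁻¹ (PA a0 b0 s t) (PB a0 b0 s t) (inv_ne_zero hR.1) (by
      rw [hR.2.2.1, ← mul_assoc, ← mul_pow, inv_mul_cancel₀ hR.1, one_pow, one_mul]) (by
      rw [hR.2.2.2, ← mul_assoc, ← mul_pow, inv_mul_cancel₀ hR.1, one_pow, one_mul])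
    rw [pencil_disc, ← hDdef] at h1
    have h2 : |((4 * a ^ 3 - 27 * b ^ 2 : ℤ) : ℝ)| ≤ |((D * PT a0 b0 s t ^ 3 : ℤ) : ℝ)| := by
      exact_mod_cast h1
    refine h2.trans ?_
    push_cast
    rw [abs_mul, abs_pow]
    have h3 : 0 ≤ 5 * c * K := by positivity
    have h4 : 0 ≤ c4 ^ 3 + c6 ^ 2 := by positivity
    gcongr
    linarith
  · have h1 := hmin w⁻¹ (PA a0 b0 s t) (PB a0 b0 s t) (inv_ne_zero hR.1) (by
      rw [hR.2.2.1, ← mul_assoc, ← mul_pow, inv_mul_cancel₀ hR.1, one_pow, one_mul]) (by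
      rw [hR.2.2.2, ← mul_assoc, ← mul_pow, inv_mul_cancel₀ hR.1, one_pow, one_mul])
    rw [pencil_disc, ← hDdef] at h1
    have hnz : 0 < |D * PT a0 b0 s t ^ 3| := abs_pos.2 (mul_ne_zero hD (pow_ne_zero _ hT0))
    have hden1 : (0 : ℤ) < w.den := by exact_mod_cast w.den_pos
    have h2 : |w.num| ^ 12 ≤ (w.den : ℤ) ^ 12 := by
      have h3 : |w.num| ^ 12 * |D * PT a0 b0 s t ^ 3| ≤ (w.den : ℤ) ^ 12 * |D * PT a0 b0 s t ^ 3| := by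
        calc |w.num| ^ 12 * |D * PT a0 b0 s t ^ 3| = |(w.den : ℤ) ^ 12 * (4 * a ^ 3 - 27 * b ^ 2)| := by
              rw [hdisc, ← hDdef, abs_mul (w.num ^ 12), abs_pow w.num]
          _ = (w.den : ℤ) ^ 12 * |4 * a ^ 3 - 27 * b ^ 2| := by
              rw [abs_mul, abs_of_pos (pow_pos hden1 12)]
          _ ≤ _ := mul_le_mul_of_nonneg_left h1 (by positivity)
      exact le_of_mul_le_mul_right h3 hnz
    have h5 : |w.num| ≤ (w.den : ℤ) := le_of_pow_le_pow_left₀ (by norm_num) hden1.le h2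
    have ha' := rep_a hR
    have hb' := rep_b hR
    have h6 : |a| ≤ |PA a0 b0 s t| := by
      have e : (w.den : ℤ) ^ 4 * |a| ≤ (w.den : ℤ) ^ 4 * |PA a0 b0 s t| := by
        calc (w.den : ℤ) ^ 4 * |a| = |(w.den : ℤ) ^ 4 * a| := by
              rw [abs_mul, abs_of_pos (pow_pos hden1 4)]
          _ = |w.num| ^ 4 * |PA a0 b0 s t| := by rw [ha', abs_mul, abs_pow]
          _ ≤ _ := by gcongr
      exact le_of_mul_le_mul_left e (pow_pos hden1 4)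
    have h7 : |b| ≤ |PB a0 b0 s t| := by
      have e : (w.den : ℤ) ^ 6 * |b| ≤ (w.den : ℤ) ^ 6 * |PB a0 b0 s t| := by
        calc (w.den : ℤ) ^ 6 * |b| = |(w.den : ℤ) ^ 6 * b| := by
              rw [abs_mul, abs_of_pos (pow_pos hden1 6)]
          _ = |w.num| ^ 6 * |PB a0 b0 s t| := by rw [hb', abs_mul, abs_pow]
          _ ≤ _ := by gcongr
      exact le_of_mul_le_mul_left e (pow_pos hden1 6)
    set M := max |(s : ℝ)| |(t : ℝ)| with hM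
    have hM0 : 0 ≤ M := le_max_of_le_left (abs_nonneg _)
    have h8 : |(a : ℝ)| ≤ c4 * M ^ 4 := by
      have : |(a : ℝ)| ≤ |((PA a0 b0 s t : ℤ) : ℝ)| := by exact_mod_cast h6
      exact this.trans (hPA s t)
    have h9 : |(b : ℝ)| ≤ c6 * M ^ 6 := by
      have : |(b : ℝ)| ≤ |((PB a0 b0 s t : ℤ) : ℝ)| := by exact_mod_cast h7
      exact this.trans (hPB s t)
    have h10 : 0 ≤ 5 * c * K := by positivity
    have h11 : 0 ≤ c4 ^ 3 := by positivity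
    have h12 : 0 ≤ c6 ^ 2 := by positivity
    have h13 : 0 ≤ |(D : ℝ)| := abs_nonneg _
    refine max_le ?_ ?_
    · calc |(a : ℝ)| ^ 3 ≤ (c4 * M ^ 4) ^ 3 := by gcongr
        _ = c4 ^ 3 * M ^ 12 := by ring
        _ ≤ _ := by gcongr; linarith
    · calc (b : ℝ) ^ 2 = |(b : ℝ)| ^ 2 := (sq_abs _).symm
        _ ≤ (c6 * M ^ 6) ^ 2 := by gcongr
        _ = c6 ^ 2 * M ^ 12 := by ring
        _ ≤ _ := by gcongr; linarith
  · intro H hH ha hb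
    have h1 := height hD hR c hc (hbez s t) H hH ha hb
    rw [← hDdef, ← hK] at h1
    set C := 1 + |(D : ℝ)| + 5 * c * K + c4 ^ 3 + c6 ^ 2 with hC
    have h3 : 0 ≤ 5 * c * K := by positivity
    have h31 : 0 ≤ c4 ^ 3 := by positivity
    have h32 : 0 ≤ c6 ^ 2 := by positivity
    have h33 : 0 ≤ |(D : ℝ)| := abs_nonneg _
    have hC1 : 1 ≤ C := by linarith
    have h2 : max |(s : ℝ)| |(t : ℝ)| ^ 4 ≤ (C * H) ^ 4 := by
      refine h1.trans ?_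
      rw [mul_pow]
      have h4 : 5 * c * K ≤ C ^ 4 := by
        calc 5 * c * K ≤ C := by linarith
          _ = C ^ 1 := (pow_one C).symm
          _ ≤ C ^ 4 := pow_le_pow_right₀ hC1 (by norm_num)
      gcongr
    exact le_of_pow_le_pow_left₀ (by norm_num) (by positivity) h2
  · intro a' b' hd' hmin' hpen' he
    obtain ⟨w', hR'⟩ := phi_spec a0 b0 a' b' hpen' hd'
    rw [← he, ← hs, ← ht] at hR'
    set x : ℚ := w' / w with hx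
    have hw := hR.1
    have hw' := hR'.1
    have hx0 : x ≠ 0 := div_ne_zero hw' hw
    have e1 : (a' : ℚ) = x ^ 4 * a := by
      rw [hR'.2.2.1, hR.2.2.1, hx]
      field_simp
    have e2 : (b' : ℚ) = x ^ 6 * b := by
      rw [hR'.2.2.2, hR.2.2.2, hx]
      field_simp
    have e3 : (a : ℚ) = (x⁻¹) ^ 4 * a' := by
      rw [e1, ← mul_assoc, ← mul_pow, inv_mul_cancel₀ hx0, one_pow, one_mul]
    have e4 : (b : ℚ) = (x⁻¹) ^ 6 * b' := by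
      rw [e2, ← mul_assoc, ← mul_pow, inv_mul_cancel₀ hx0, one_pow, one_mul]
    have h1 := hmin x a' b' hx0 e1 e2
    have h2 := hmin' x⁻¹ a b (inv_ne_zero hx0) e3 e4
    have h3 : |4 * a ^ 3 - 27 * b ^ 2| = |4 * a' ^ 3 - 27 * b' ^ 2| := le_antisymm h1 h2
    have h4 : ((4 * a' ^ 3 - 27 * b' ^ 2 : ℤ) : ℚ) = x ^ 12 * ((4 * a ^ 3 - 27 * b ^ 2 : ℤ) : ℚ) := by
      push_cast
      rw [e1, e2]
      ring
    have h5 : |((4 * a ^ 3 - 27 * b ^ 2 : ℤ) : ℚ)| = |((4 * a' ^ 3 - 27 * b' ^ 2 : ℤ) : ℚ)| := by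
      exact_mod_cast h3
    have h6 : x ^ 12 = 1 := by
      rw [h4, abs_mul] at h5
      have h7 : |((4 * a ^ 3 - 27 * b ^ 2 : ℤ) : ℚ)| ≠ 0 := by
        rw [abs_ne_zero]
        exact_mod_cast hd
      have h8 : |x ^ 12| = 1 := by
        have h9 : 1 * |((4 * a ^ 3 - 27 * b ^ 2 : ℤ) : ℚ)| =
            |x ^ 12| * |((4 * a ^ 3 - 27 * b ^ 2 : ℤ) : ℚ)| := by rw [one_mul]; exact h5
        exact (mul_right_cancel₀ h7 h9).symm
      rwa [abs_of_nonneg (by positivity)] at h8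
    have h10 : x ^ 2 = 1 := by
      have : (x ^ 2) ^ 6 = 1 := by rw [← pow_mul]; exact h6
      exact (pow_eq_one_iff_of_nonneg (sq_nonneg x) (by norm_num)).1 this
    constructor
    · have : (a' : ℚ) = a := by
        rw [e1]
        have : x ^ 4 = 1 := by
          calc x ^ 4 = (x ^ 2) ^ 2 := by ring
            _ = 1 := by rw [h10]; norm_num
        rw [this, one_mul]
      exact_mod_cast this.symm
    · have : (b' : ℚ) = b := by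
        rw [e2]
        have : x ^ 6 = 1 := by
          calc x ^ 6 = (x ^ 2) ^ 3 := by ring
            _ = 1 := by rw [h10]; norm_num
        rw [this, one_mul]
      exact_mod_cast this.symm

end Pool.Agent.W4.QD
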