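import Pool.Agent.W4.QD.Pencil
import Pool.Agent.W4.QD.Conj
import Pool.Agent.W4.QD.Pen2
import Pool.Agent.W4.CF.All
import Pool.Agent.W4.VC.All
import Pool.Agent.W143.QD.IDX
import Pool.Agent.W382.QD.IDEAL
import Pool.Agent.W924.QD.DET
import Pool.Agent.W999.QD.Rank
import Pool.Agent.W101.QD.Class
import Pool.Agent.W338.QD.CRV
import Pool.Agent.W346.QD.BG
import Pool.Agent.W154.QD.NRM
import Pool.Agent.W654.QD.TR
import Pool.Agent.W462.QD.CntQ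
import Pool.Agent.W688.QD.COORD
import Pool.Agent.W392.QD.SEL

set_option autoImplicit false

namespace Pool.Agent.W4.QD

theorem hBG' (h1 : S_KROOT) (h2 : S_PRM) : S_BG :=
  Pool.Agent.W346.QD.t_BG Pool.Agent.W578.CF.t_DIVS Pool.Agent.W230.CF.t_TAU
    Pool.Agent.W721.CF.t_MINK Pool.Agent.W143.QD.t_IDX Pool.Agent.W382.QD.t_IDEAL
    (Pool.Agent.W338.QD.t_CRV Pool.Agent.W143.QD.t_IDX Pool.Agent.W688.QD.t_COORD h2
      Pool.Agent.W924.QD.t_DET Pool.Agent.W999.QD.t_RANK (Pool.Agent.W101.QD.t_CLASS h1))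

theorem hTR' (h1 : S_KROOT) (h2 : S_PRM) : S_TR :=
  Pool.Agent.W654.QD.t_TR Pool.Agent.W4.VC.t_LAT (hBG' h1 h2) Pool.Agent.W392.QD.SEL.t_SEL
    Pool.W335.CF.t_RAD Pool.Agent.W154.QD.t_NRM

theorem hBIGG' (h1 : S_KROOT) (h2 : S_PRM) : S_BIGG :=
  Pool.Agent.W928.QD.t_BIGG (hBG' h1 h2) Pool.Agent.W154.QD.t_NRM

end Pool.Agent.W4.QD
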