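import Pool.Agent.W4.QD.Pencil

/-!
# Project QD: the 3-division polynomial
-/

set_option autoImplicit false

namespace Pool.Agent.W4.QD

open Polynomial

/-- if the 3-division polynomial is irreducible then so is the form of the points of order 3 -/
theorem irr_psi (a b : ℤ)
    (h : Irreducible (3 * X ^ 4 - C (6 * (a : ℚ)) * X ^ 2 - C (12 * (b : ℚ)) * X -
      C ((a : ℚ) ^ 2) : ℚ[X])) : Irreducible ((qT a b).map (Int.castRingHom ℚ)) := by
  let _ : Invertible (1 / 3 : ℚ) := invertibleOfNonzero (by norm_num)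
  have h1 := (MulEquiv.irreducible_iff (algEquivCMulXAddC (1 / 3 : ℚ) 0)).mpr h
  have hu : IsUnit (C (27 : ℚ)) := isUnit_C.mpr (isUnit_iff_ne_zero.mpr (by norm_num))
  have h2 : (qT a b).map (Int.castRingHom ℚ) = C (27 : ℚ) * (algEquivCMulXAddC (1 / 3 : ℚ) 0)
      (3 * X ^ 4 - C (6 * (a : ℚ)) * X ^ 2 - C (12 * (b : ℚ)) * X - C ((a : ℚ) ^ 2)) := by
    rw [algEquivCMulXAddC_apply]
    unfold qT
    have m1 : (C (18 * a) : ℤ[X]).map (Int.castRingHom ℚ) = C (18 * (a : ℚ)) := by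
      rw [Polynomial.map_C]
      simp
    have m2 : (C (108 * b) : ℤ[X]).map (Int.castRingHom ℚ) = C (108 * (b : ℚ)) := by
      rw [Polynomial.map_C]
      simp
    have m3 : (C (27 * a ^ 2) : ℤ[X]).map (Int.castRingHom ℚ) = C (27 * (a : ℚ) ^ 2) := by
      rw [Polynomial.map_C]
      simp
    rw [Polynomial.map_sub, Polynomial.map_sub, Polynomial.map_sub, Polynomial.map_mul,
      Polynomial.map_mul, Polynomial.map_pow, Polynomial.map_pow, map_X, m1, m2, m3]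
    simp only [C_0, add_zero, aeval_def, eval₂_sub, eval₂_mul, eval₂_pow, eval₂_X, eval₂_C,
      algebraMap_eq]
    have e3 : eval₂ (C : ℚ →+* ℚ[X]) (C (1 / 3 : ℚ) * X) 3 = C 3 := by
      rw [show (3 : ℚ[X]) = C 3 from rfl, eval₂_C]
    rw [e3]
    simp only [mul_pow, ← C_pow]
    have k1 : (C (27 : ℚ)) * (C (3 : ℚ) * (C ((1 / 3 : ℚ) ^ 4) * X ^ 4)) = X ^ 4 := by
      rw [← mul_assoc, ← mul_assoc, ← C_mul, ← C_mul]
      norm_num
    have k2 : (C (27 : ℚ)) * (C (6 * (a : ℚ)) * (C ((1 / 3 : ℚ) ^ 2) * X ^ 2)) =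
        C (18 * (a : ℚ)) * X ^ 2 := by
      rw [← mul_assoc, ← mul_assoc, ← C_mul, ← C_mul]
      congr 2
      ring
    have k3 : (C (27 : ℚ)) * (C (12 * (b : ℚ)) * (C (1 / 3 : ℚ) * X)) =
        C (108 * (b : ℚ)) * X := by
      rw [← mul_assoc, ← mul_assoc, ← C_mul, ← C_mul]
      congr 2
      ring
    have k4 : (C (27 : ℚ)) * C ((a : ℚ) ^ 2) = C (27 * (a : ℚ) ^ 2) := by
      rw [← C_mul]
    rw [mul_sub, mul_sub, mul_sub, k1, k2, k3, k4]
  rw [h2]
  exact ((irreducible_isUnit_mul hu).mpr h1)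

end Pool.Agent.W4.QD
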