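import Pool.Agent.W4.QD.All
import Pool.Agent.W4.QD.Irr
import Pool.Agent.W293.QD.Kroot
import Pool.Agent.W490.QD.PRM

/-!
# Project QD: the main theorems without hypotheses
-/

set_option autoImplicit false

namespace Pool.Agent.W4.QD

theorem hBG : S_BG := hBG' Pool.Agent.W293.QD.t_KROOT Pool.Agent.W490.QD.t_PRM

theorem hTR : S_TR := hTR' Pool.Agent.W293.QD.t_KROOT Pool.Agent.W490.QD.t_PRM

theorem hBIGG : S_BIGG := hBIGG' Pool.Agent.W293.QD.t_KROOT Pool.Agent.W490.QD.t_PRM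

end Pool.Agent.W4.QD
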