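import Pool.Agent.W4.QD.Num2
import Pool.Agent.W4.QD.All2
import Pool.Agent.W140.QD.SELB
import Pool.Agent.W571.QD.TRF
import Pool.Agent.W54.QD.HF
import Pool.Agent.W782.QD.PRD
import Pool.Agent.W919.QD.HTP
import Pool.Agent.W563.QD.RADK

/-!
# Project QD, second part: all parts put together
-/

set_option autoImplicit false

namespace Pool.Agent.W4.QD

theorem hTRF : S_TRF :=
  Pool.Agent.W571.QD.t_TRF Pool.Agent.W4.VC.t_LAT Pool.Agent.W140.QD.SELB.t_SELB
    Pool.W335.CF.t_RAD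

theorem hHF : S_HF :=
  Pool.Agent.W54.QD.t_HF hBG Pool.Agent.W154.QD.t_NRM Pool.Agent.W505.VC.t_HOM
    Pool.Agent.W290.VC.t_RES

theorem hPRD : S_PRD := Pool.Agent.W782.QD.t_PRD Pool.Agent.W505.VC.t_HOM

theorem hHTP : S_HTP := W919.QD.t_HTP

theorem hRADK : S_RADK := Pool.Agent.W563.QD.t_RADK

end Pool.Agent.W4.QD

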