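import Pool.Agent.W4.QD.Stms
import Pool.Agent.W4.QD.Stms3

/-!
# Project QD: from a dyadic box to all coprime pairs
-/

set_option autoImplicit false

namespace Pool.Agent.W4.QD

open NumberField Finset Polynomial Pool.Agent.W4.CF Pool.Agent.W4.VC

/-- the exponent: `BdD d Y (Y ^ lam) = Y ^ eD d lam` -/
noncomputable def eD (d : ℕ) (lam : ℝ) : ℝ :=
  min ((((d : ℝ) ^ 2 + 2 * d - 2) / (d * (2 * d - 1))) * lam)
    (max (lam - (((d : ℝ) - 1) * (d - 2)) / (2 * d - 1))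
      ((lam + (d : ℝ) * (d - 1)) / (4 * d - 3)))

theorem eD_nonneg (d : ℕ) (hd : 3 ≤ d) (lam : ℝ) (hl : 0 ≤ lam) : 0 ≤ eD d lam := by
  have hd' : (3 : ℝ) ≤ d := by exact_mod_cast hd
  unfold eD
  refine le_min ?_ (le_max_of_le_right ?_)
  · apply mul_nonneg _ hl
    apply div_nonneg
    · nlinarith
    · nlinarith
  · apply div_nonneg
    · nlinarith
    · linarith

theorem bdD_le (d : ℕ) (hd : 3 ≤ d) (C Y lam : ℝ) (hC : 1 ≤ C) (hY : 1 ≤ Y) :
    BdD d Y (C * Y ^ lam) ≤ C * Y ^ eD d lam := by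
  have hd' : (3 : ℝ) ≤ d := by exact_mod_cast hd
  have hY0 : 0 < Y := by linarith
  have hC0 : 0 < C := by linarith
  have hYl : 0 < Y ^ lam := Real.rpow_pos_of_pos hY0 _
  have hCpow : ∀ x : ℝ, x ≤ 1 → C ^ x ≤ C := fun x hx => by
    calc C ^ x ≤ C ^ (1 : ℝ) := Real.rpow_le_rpow_of_exponent_le hC hx
      _ = C := Real.rpow_one _
  unfold BdD eD
  set α : ℝ := ((d : ℝ) ^ 2 + 2 * d - 2) / (d * (2 * d - 1)) with hα
  set β : ℝ := (((d : ℝ) - 1) * (d - 2)) / (2 * d - 1) with hβ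
  have hα1 : α ≤ 1 := by
    rw [hα, div_le_one (by nlinarith)]
    nlinarith
  have h1 : (C * Y ^ lam) ^ α ≤ C * Y ^ (α * lam) := by
    rw [Real.mul_rpow hC0.le hYl.le, ← Real.rpow_mul hY0.le, mul_comm lam α]
    exact mul_le_mul_of_nonneg_right (hCpow α hα1) (Real.rpow_nonneg hY0.le _)
  have h2 : C * Y ^ lam * Y ^ (-β) ≤ C * Y ^ (lam - β) := by
    rw [mul_assoc, ← Real.rpow_add hY0, sub_eq_add_neg]
  have hc4 : (0 : ℝ) < 4 * d - 3 := by linarith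
  have h3 : (C * Y ^ lam) ^ (1 / (4 * (d : ℝ) - 3)) * Y ^ ((d : ℝ) * (d - 1) / (4 * d - 3)) ≤
      C * Y ^ ((lam + (d : ℝ) * (d - 1)) / (4 * d - 3)) := by
    rw [Real.mul_rpow hC0.le hYl.le, ← Real.rpow_mul hY0.le, mul_assoc, ← Real.rpow_add hY0]
    have e : lam * (1 / (4 * (d : ℝ) - 3)) + (d : ℝ) * (d - 1) / (4 * d - 3) =
        (lam + (d : ℝ) * (d - 1)) / (4 * d - 3) := by
      field_simp
    rw [e]
    refine mul_le_mul_of_nonneg_right (hCpow _ ?_) (Real.rpow_nonneg hY0.le _)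
    rw [div_le_one hc4]
    linarith
  have hmono : ∀ x y : ℝ, x ≤ y → C * Y ^ x ≤ C * Y ^ y := fun x y hxy =>
    mul_le_mul_of_nonneg_left (Real.rpow_le_rpow_of_exponent_le hY hxy) hC0.le
  rcases le_total (α * lam) (max (lam - β) ((lam + (d : ℝ) * (d - 1)) / (4 * d - 3))) with h | h
  · rw [min_eq_left h]
    exact (min_le_left _ _).trans h1
  · rw [min_eq_right h]
    refine (min_le_right _ _).trans (max_le ?_ ?_)
    · exact h2.trans (hmono _ _ (le_max_left _ _))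
    · exact h3.trans (hmono _ _ (le_max_right _ _))

theorem dyadic (u v : ℤ) (h : IsCoprime u v) : ∃ j : ℕ, Dy (2 ^ j) (u, v) ∧
    (2 : ℝ) ^ j ≤ 2 * max |(u : ℝ)| |(v : ℝ)| ∧ max |(u : ℝ)| |(v : ℝ)| ≤ 2 ^ j := by
  set M : ℕ := max u.natAbs v.natAbs with hM
  have hMR : (M : ℝ) = max |(u : ℝ)| |(v : ℝ)| := by
    rw [hM, Nat.cast_max, Nat.cast_natAbs, Nat.cast_natAbs, Int.cast_abs, Int.cast_abs]
  have hM1 : 1 ≤ M := by
    by_contra hcon
    have h0 : M = 0 := by omega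
    have hu : u = 0 := by
      have : u.natAbs ≤ M := le_max_left _ _
      omega
    have hv : v = 0 := by
      have : v.natAbs ≤ M := le_max_right _ _
      omega
    rw [hu, hv] at h
    exact not_isCoprime_zero_zero h
  have hYM : ((2 : ℝ) ^ Nat.clog 2 M) ≤ 2 * M := by
    rcases Nat.lt_or_ge 1 M with h | h
    · have h1 := Nat.pow_pred_clog_lt_self (b := 2) (by norm_num) h
      have h2 : 0 < Nat.clog 2 M := Nat.clog_pos (by norm_num) h
      have h3 : 2 ^ Nat.clog 2 M = 2 * 2 ^ (Nat.clog 2 M).pred := by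
        rw [← pow_succ']
        exact congrArg (fun t => 2 ^ t) (Nat.succ_pred_eq_of_pos h2).symm
      have h4 : 2 ^ Nat.clog 2 M ≤ 2 * M := by rw [h3]; omega
      exact_mod_cast h4
    · have h1 : M = 1 := by omega
      rw [h1]
      norm_num
  have hMY : (M : ℝ) ≤ 2 ^ Nat.clog 2 M := by
    exact_mod_cast Nat.le_pow_clog (by norm_num) M
  refine ⟨Nat.clog 2 M, ⟨h, ?_, ?_, ?_⟩, ?_, ?_⟩
  · exact ((le_max_left _ _).trans hMR.ge).trans hMY
  · exact ((le_max_right _ _).trans hMR.ge).trans hMY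
  · rw [← hMR]
    exact hYM
  · rw [← hMR]
    exact hYM
  · rw [← hMR]
    exact hMY

theorem radp_pos' (m n : ℕ) : 1 ≤ radp m n := by
  unfold radp
  apply Nat.one_le_iff_ne_zero.mpr
  rw [Finset.prod_ne_zero_iff]
  intro p hp
  exact (Nat.prime_of_mem_primeFactors (mem_filter.mp hp).1).ne_zero

/-- COUNT: coprime pairs of bounded size with small radical -/
theorem qcount (hTR : S_TR) (K : Type) [Field K] [NumberField K] (θ : 𝓞 K) (hG : Gen θ)
    (hd : 3 ≤ Module.finrank ℚ K) :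
    ∃ i : ℕ, 1 ≤ i ∧ ∀ (m : ℕ) (C0 lam ε : ℝ), 1 ≤ m → i ∣ m → 1 ≤ C0 → 0 ≤ lam →
      lam ≤ (Module.finrank ℚ K : ℝ) - 2 → 0 < ε → ∃ C : ℝ, 0 < C ∧ ∀ W : ℝ, 1 ≤ W →
      ∀ s : Finset (ℤ × ℤ),
      (∀ p ∈ s, IsCoprime p.1 p.2 ∧ max |(p.1 : ℝ)| |(p.2 : ℝ)| ≤ W ∧
        (radp m (NF θ p.1 p.2).natAbs : ℝ) ≤ C0 * (max |(p.1 : ℝ)| |(p.2 : ℝ)|) ^ lam) →
      (s.card : ℝ) ≤ C * W ^ (eD (Module.finrank ℚ K) lam + ε) := by
  classical
  obtain ⟨i, hi, hT⟩ := hTR K θ hG hd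
  refine ⟨i, hi, ?_⟩
  intro m C0 lam ε hm him hC0 hl hl2 hε
  set d := Module.finrank ℚ K with hdd
  obtain ⟨C5, hC5, hcount⟩ := hT C0 (ε / 2) (by linarith) (by positivity)
  set e : ℝ := eD d lam with he
  have he0 : 0 ≤ e := eD_nonneg d hd lam hl
  set a : ℝ := e + ε with ha
  have ha0 : 0 < a := by positivity
  have hx1 : (1 : ℝ) < (2 : ℝ) ^ a := Real.one_lt_rpow (by norm_num) ha0
  have hxa : (0 : ℝ) < (2 : ℝ) ^ a - 1 := by linarith
  have hm0 : (0 : ℝ) < m := by exact_mod_cast hm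
  set A : ℝ := C5 * (m : ℝ) ^ (ε / 2) * C0 with hA
  have hA0 : 0 < A := by positivity
  refine ⟨A * ((4 : ℝ) ^ a / ((2 : ℝ) ^ a - 1)), by positivity, ?_⟩
  intro W hW s hs
  have hW0 : 0 < W := by linarith
  have hex : ∀ p ∈ s, ∃ j : ℕ, Dy (2 ^ j) p ∧ (2 : ℝ) ^ j ≤ 2 * max |(p.1 : ℝ)| |(p.2 : ℝ)| ∧
      max |(p.1 : ℝ)| |(p.2 : ℝ)| ≤ 2 ^ j := fun p hp => by
    obtain ⟨u, v⟩ := p
    exact dyadic u v (hs _ hp).1
  choose! f hf using hex
  set J : ℕ := Nat.log 2 ⌊2 * W⌋₊ + 1 with hJ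
  have hfl : ⌊2 * W⌋₊ ≠ 0 := by
    have : 1 ≤ ⌊2 * W⌋₊ := Nat.le_floor (by push_cast; linarith)
    omega
  have hJW : (2 : ℝ) ^ J ≤ 4 * W := by
    have h1 : 2 ^ Nat.log 2 ⌊2 * W⌋₊ ≤ ⌊2 * W⌋₊ := Nat.pow_log_le_self 2 hfl
    have h2 : ((2 ^ Nat.log 2 ⌊2 * W⌋₊ : ℕ) : ℝ) ≤ 2 * W :=
      (by exact_mod_cast h1 : ((2 ^ Nat.log 2 ⌊2 * W⌋₊ : ℕ) : ℝ) ≤ (⌊2 * W⌋₊ : ℝ)).trans
        (Nat.floor_le (by positivity))
    rw [hJ, pow_succ]
    push_cast at h2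
    linarith
  have hcov : s ⊆ (range J).biUnion (fun j => s.filter (fun p => f p = j)) := by
    intro p hp
    rw [mem_biUnion]
    refine ⟨f p, ?_, mem_filter.mpr ⟨hp, rfl⟩⟩
    rw [mem_range, hJ, Nat.lt_succ_iff]
    apply Nat.le_log_of_pow_le (by norm_num)
    apply Nat.le_floor
    push_cast
    have h1 := (hf p hp).2.1
    have h2 := (hs p hp).2.1
    linarith
  have hclass : ∀ j ∈ range J, ((s.filter (fun p => f p = j)).card : ℝ) ≤ A * ((2 : ℝ) ^ a) ^ j := by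
    intro j _
    have hY1 : (1 : ℝ) ≤ 2 ^ j := one_le_pow₀ (by norm_num)
    have hY0 : (0 : ℝ) < 2 ^ j := by positivity
    set R : ℝ := C0 * ((2 : ℝ) ^ j) ^ lam with hR
    have hR1 : 1 ≤ R := by
      have := Real.one_le_rpow hY1 hl
      nlinarith
    have hRY : R ≤ C0 * ((2 : ℝ) ^ j) ^ (d - 2) := by
      rw [hR]
      apply mul_le_mul_of_nonneg_left _ (by linarith)
      rw [← Real.rpow_natCast ((2 : ℝ) ^ j) (d - 2)]
      apply Real.rpow_le_rpow_of_exponent_le hY1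
      rw [Nat.cast_sub (by omega : 2 ≤ d)]
      push_cast
      exact hl2
    have hmain := hcount m (2 ^ j) R hm him hY1 hR1 hRY (s.filter (fun p => f p = j)) (by
      intro p hp
      rw [mem_filter] at hp
      obtain ⟨hp, rfl⟩ := hp
      obtain ⟨h1, h2, h3⟩ := hf p hp
      refine ⟨h1, ?_⟩
      refine (hs p hp).2.2.trans ?_
      rw [hR]
      apply mul_le_mul_of_nonneg_left _ (by linarith)
      exact Real.rpow_le_rpow (le_max_of_le_left (abs_nonneg _)) h3 hl)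
    refine hmain.trans ?_
    have hb := bdD_le d hd C0 (2 ^ j) lam hC0 hY1
    calc C5 * ((m : ℝ) * 2 ^ j) ^ (ε / 2) * BdD d (2 ^ j) R ≤
          C5 * ((m : ℝ) * 2 ^ j) ^ (ε / 2) * (C0 * ((2 : ℝ) ^ j) ^ e) := by gcongr
      _ = A * (((2 : ℝ) ^ j) ^ (ε / 2) * ((2 : ℝ) ^ j) ^ e) := by
          rw [Real.mul_rpow hm0.le hY0.le, hA]
          ring
      _ = A * ((2 : ℝ) ^ j) ^ (ε / 2 + e) := by rw [Real.rpow_add hY0]
      _ ≤ A * ((2 : ℝ) ^ j) ^ a := by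
          apply mul_le_mul_of_nonneg_left _ hA0.le
          apply Real.rpow_le_rpow_of_exponent_le hY1
          rw [ha]
          linarith
      _ = A * ((2 : ℝ) ^ a) ^ j := by
          congr 1
          rw [← Real.rpow_natCast, ← Real.rpow_natCast, ← Real.rpow_mul (by norm_num),
            ← Real.rpow_mul (by norm_num), mul_comm]
  calc (s.card : ℝ) ≤ (((range J).biUnion (fun j => s.filter (fun p => f p = j))).card : ℝ) := by
        exact_mod_cast card_le_card hcov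
    _ ≤ ∑ j ∈ range J, ((s.filter (fun p => f p = j)).card : ℝ) := by
        exact_mod_cast card_biUnion_le
    _ ≤ ∑ j ∈ range J, A * ((2 : ℝ) ^ a) ^ j := sum_le_sum hclass
    _ = A * ((((2 : ℝ) ^ a) ^ J - 1) / ((2 : ℝ) ^ a - 1)) := by
        rw [← mul_sum, geom_sum_eq hx1.ne']
    _ ≤ A * ((4 : ℝ) ^ a * W ^ a / ((2 : ℝ) ^ a - 1)) := by
        apply mul_le_mul_of_nonneg_left _ hA0.le
        apply div_le_div_of_nonneg_right _ hxa.le
        have h1 : ((2 : ℝ) ^ a) ^ J = ((2 : ℝ) ^ J) ^ a := by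
          rw [← Real.rpow_natCast, ← Real.rpow_natCast, ← Real.rpow_mul (by norm_num),
            ← Real.rpow_mul (by norm_num), mul_comm]
        rw [h1, ← Real.mul_rpow (by norm_num) hW0.le]
        have h2 : ((2 : ℝ) ^ J) ^ a ≤ (4 * W) ^ a := Real.rpow_le_rpow (by positivity) hJW ha0.le
        linarith
    _ = _ := by ring

end Pool.Agent.W4.QD
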