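import Pool.Agent.W4.QD.Num
import Pool.Agent.W4.CF.Core

/-!
# Project QD: exceptional members of a pencil of curves with the same points of order three
-/

set_option autoImplicit false

namespace Pool.Agent.W4.QD

open NumberField Finset Polynomial Pool.Agent.W4.CF Pool.Agent.W4.VC

/-- a monic irreducible polynomial is the minimal polynomial of a generator of a number field -/
theorem field_of (f : ℤ[X]) (hf : f.Monic) (hirr : Irreducible (f.map (Int.castRingHom ℚ))) :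
    ∃ (K : Type) (_ : Field K) (_ : NumberField K) (θ : 𝓞 K), Gen θ ∧
      Module.finrank ℚ K = f.natDegree ∧ minpoly ℤ θ = f := by
  set g : ℚ[X] := f.map (Int.castRingHom ℚ) with hg
  have : Fact (Irreducible g) := ⟨hirr⟩
  have hgm : g.Monic := hf.map _
  have hg0 : g ≠ 0 := hgm.ne_zero
  have : FiniteDimensional ℚ (AdjoinRoot g) := (AdjoinRoot.powerBasis hg0).finite
  have : CharZero (AdjoinRoot g) := charZero_of_injective_algebraMap
    (FaithfulSMul.algebraMap_injective ℚ (AdjoinRoot g))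
  have hNF : NumberField (AdjoinRoot g) := { to_charZero := inferInstance,
                                              to_finiteDimensional := inferInstance }
  have hroot : aeval (AdjoinRoot.root g) f = 0 := by
    have h1 := AdjoinRoot.eval₂_root g
    rw [hg, eval₂_map] at h1
    rw [aeval_def]
    have e : algebraMap ℤ (AdjoinRoot g) = (AdjoinRoot.of g).comp (Int.castRingHom ℚ) :=
      RingHom.ext_int _ _
    rw [e]
    exact h1
  have hint : IsIntegral ℤ (AdjoinRoot.root g) := ⟨f, hf, by rw [← aeval_def]; exact hroot⟩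
  obtain ⟨θ, hθ⟩ : ∃ θ : 𝓞 (AdjoinRoot g), (θ : AdjoinRoot g) = AdjoinRoot.root g :=
    ⟨⟨AdjoinRoot.root g, hint⟩, rfl⟩
  refine ⟨AdjoinRoot g, inferInstance, hNF, θ, ?_, ?_, ?_⟩
  · unfold Gen
    rw [hθ]
    exact AdjoinRoot.adjoinRoot_eq_top
  · rw [(AdjoinRoot.powerBasis hg0).finrank, AdjoinRoot.powerBasis_dim, hg,
      hf.natDegree_map]
  · have h1 : minpoly ℤ θ = minpoly ℤ (AdjoinRoot.root g) := by
      rw [← hθ]
      exact (minpoly.algebraMap_eq (FaithfulSMul.algebraMap_injective _ _) θ).symm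
    rw [h1]
    have h2 := minpoly.isIntegrallyClosed_eq_field_fractions' ℚ hint
    have h4 : aeval (AdjoinRoot.root g) (f.map (algebraMap ℤ ℚ)) = 0 := by
      rw [aeval_map_algebraMap]
      exact hroot
    have h3 : f.map (algebraMap ℤ ℚ) = minpoly ℚ (AdjoinRoot.root g) :=
      minpoly.eq_of_irreducible_of_monic hirr h4 hgm
    rw [← h3] at h2
    apply Polynomial.map_injective (algebraMap ℤ ℚ) (FaithfulSMul.algebraMap_injective ℤ ℚ)
    exact h2.symm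

/-- the polynomial of the points of order three: `27 ψ₃(X / 3)` -/
noncomputable def qT (a b : ℤ) : ℤ[X] :=
  X ^ 4 - C (18 * a) * X ^ 2 - C (108 * b) * X - C (27 * a ^ 2)

theorem qT_coeff (a b : ℤ) : (qT a b).coeff 0 = -27 * a ^ 2 ∧ (qT a b).coeff 1 = -108 * b ∧
    (qT a b).coeff 2 = -18 * a ∧ (qT a b).coeff 3 = 0 ∧ (qT a b).coeff 4 = 1 := by
  unfold qT
  simp only [coeff_sub, coeff_X_pow, coeff_C_mul, coeff_X, coeff_C]
  norm_num

theorem qT_natDegree (a b : ℤ) : (qT a b).natDegree = 4 := by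
  unfold qT
  compute_degree!

theorem qT_monic (a b : ℤ) : (qT a b).Monic := by
  rw [Monic, leadingCoeff, qT_natDegree]
  exact (qT_coeff a b).2.2.2.2

theorem qT_hom (a b s t : ℤ) : hom (qT a b) 4 s t = PT a b s t := by
  obtain ⟨h0, h1, h2, h3, h4⟩ := qT_coeff a b
  unfold hom PT
  simp only [sum_range_succ, sum_range_zero, h0, h1, h2, h3, h4]
  ring

/-- the exceptional models -/
def ExPen (a0 b0 : ℤ) (κ K0 : ℝ) (X : ℕ) : Set (ℤ × ℤ) :=
  {q | IsMinM q.1 q.2 ∧ InPencil a0 b0 q.1 q.2 ∧ |q.1| ≤ (X : ℤ) ^ 2 ∧ |q.2| ≤ (X : ℤ) ^ 3 ∧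
    (condM q.1 q.2 : ℝ) ^ κ < K0 * max (|(q.1 : ℝ)| ^ 3) ((q.2 : ℝ) ^ 2)}

theorem exPen_finite (a0 b0 : ℤ) (κ K0 : ℝ) (X : ℕ) : (ExPen a0 b0 κ K0 X).Finite := by
  refine ((Finset.finite_toSet (Icc (-(X : ℤ) ^ 2) ((X : ℤ) ^ 2) ×ˢ
    Icc (-(X : ℤ) ^ 3) ((X : ℤ) ^ 3)))).subset ?_
  rintro ⟨a, b⟩ ⟨-, -, h1, h2, -⟩
  simp only at h1 h2
  rw [Finset.mem_coe, mem_product, mem_Icc, mem_Icc]
  exact ⟨abs_le.mp h1, abs_le.mp h2⟩

theorem radp_le_cond (m mp : ℕ) (hm : mp ∣ m) (a b P : ℤ)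
    (hp : ∀ p : ℕ, p.Prime → ¬ p ∣ mp → (p : ℤ) ∣ P → 5 ≤ p ∧ (p : ℤ) ∣ 4 * a ^ 3 - 27 * b ^ 2)
    (hD : DD a b ≠ 0) : radp m P.natAbs ≤ condM a b := by
  have h1 : radp m P.natAbs ≤ ∏ p ∈ (DD a b).natAbs.primeFactors.filter (fun p => 5 ≤ p), p := by
    unfold radp
    refine Finset.prod_le_prod_of_subset_of_one_le' ?_ ?_
    · intro p hpm
      rw [mem_filter] at hpm ⊢
      have hpp := Nat.prime_of_mem_primeFactors hpm.1
      have hd : (p : ℤ) ∣ P := Int.natCast_dvd.mpr (Nat.dvd_of_mem_primeFactors hpm.1)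
      obtain ⟨h5, hdd⟩ := hp p hpp (fun h => hpm.2 (h.trans hm)) hd
      refine ⟨?_, h5⟩
      rw [Nat.mem_primeFactors]
      exact ⟨hpp, Int.natCast_dvd.mp hdd, Int.natAbs_ne_zero.mpr hD⟩
    · intro p hpm _
      exact (Nat.prime_of_mem_primeFactors (mem_filter.mp hpm).1).one_lt.le
  refine h1.trans ?_
  unfold CF.condM
  refine Finset.prod_le_prod (fun _ _ => Nat.zero_le _) ?_
  intro p hpm
  have hpp := Nat.prime_of_mem_primeFactors (mem_filter.mp hpm).1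
  split_ifs
  · exact Nat.le_self_pow (by norm_num) p
  · exact le_rfl

/-- COUNT of the exceptional members of the pencil -/
theorem pen_count (hTR : S_TR) (hN : S_NRM) (hP : S_PEN2) (a0 b0 : ℤ)
    (h0 : 4 * a0 ^ 3 - 27 * b0 ^ 2 ≠ 0)
    (hirr : Irreducible ((qT a0 b0).map (Int.castRingHom ℚ))) (κ K0 ε : ℝ) (hκ : 6 ≤ κ)
    (hK0 : 0 < K0) (hε : 0 < ε) :
    ∃ C : ℝ, 0 < C ∧ ∀ X : ℕ, 1 ≤ X → (ExPen a0 b0 κ K0 X).Finite ∧
      ((ExPen a0 b0 κ K0 X).ncard : ℝ) ≤ C * (X : ℝ) ^ (eD 4 (12 / κ) / 2 + ε) := by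
  classical
  have hκ0 : 0 < κ := by linarith
  obtain ⟨K, _, _, θ, hG, hfr, hmin⟩ := field_of (qT a0 b0) (qT_monic a0 b0) hirr
  rw [qT_natDegree] at hfr
  have hNF : ∀ s t : ℤ, NF θ s t = PT a0 b0 s t := fun s t => by
    rw [(hN K θ hG).2.1, hmin, hfr, qT_hom]
  obtain ⟨i, hi, hcount⟩ := qcount hTR K θ hG (by rw [hfr]; norm_num)
  obtain ⟨mp, Cp, φ, hmp, hCp, hφ⟩ := hP a0 b0 h0
  set m : ℕ := mp * i with hm
  have hm1 : 1 ≤ m := Nat.one_le_iff_ne_zero.mpr (by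
    have : 0 < mp * i := Nat.mul_pos hmp hi
    omega)
  set C0 : ℝ := max 1 ((K0 * Cp) ^ (1 / κ)) with hC0
  have hlam : (12 : ℝ) / κ ≤ ((Module.finrank ℚ K : ℕ) : ℝ) - 2 := by
    rw [hfr, div_le_iff₀ hκ0]
    norm_num
    linarith
  obtain ⟨C, hC, hcnt⟩ := hcount m C0 (12 / κ) (2 * ε) hm1 ⟨mp, by rw [hm]; ring⟩ (le_max_left _ _)
    (by positivity) hlam (by positivity)
  rw [hfr] at hcnt
  have he0 : 0 ≤ eD 4 (12 / κ) := eD_nonneg 4 (by norm_num) _ (by positivity)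
  refine ⟨C * Cp ^ (eD 4 (12 / κ) + 2 * ε), by positivity, fun X hX => ⟨exPen_finite _ _ _ _ _, ?_⟩⟩
  have hX1 : (1 : ℝ) ≤ X := by exact_mod_cast hX
  have hX0 : (0 : ℝ) < X := by linarith
  set H : ℝ := Real.sqrt X with hH
  have hH1 : 1 ≤ H := Real.one_le_sqrt.mpr hX1
  have hHsq : H ^ 2 = X := Real.sq_sqrt hX0.le
  set E : Finset (ℤ × ℤ) := (exPen_finite a0 b0 κ K0 X).toFinset with hE
  have hEm : ∀ q ∈ E, q ∈ ExPen a0 b0 κ K0 X := fun q hq => by
    rw [hE, Set.Finite.mem_toFinset] at hq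
    exact hq
  rw [Set.ncard_eq_toFinset_card _ (exPen_finite a0 b0 κ K0 X), ← hE]
  have hinj : Set.InjOn φ (E : Set (ℤ × ℤ)) := by
    rintro ⟨a, b⟩ hq ⟨a', b'⟩ hq' hqq
    obtain ⟨h1, h2, -⟩ := hEm _ hq
    obtain ⟨h1', h2', -⟩ := hEm _ hq'
    have := (hφ a b h1.1 h1.2 h2).2.2.2.2.2.2 a' b' h1'.1 h1'.2 h2' hqq
    exact Prod.ext this.1 this.2
  have hmain := hcnt (Cp * H) (by nlinarith) (E.image φ) (by
    intro p hp
    obtain ⟨⟨a, b⟩, hq, rfl⟩ := mem_image.mp hp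
    obtain ⟨h1, h2, h3, h4, h5⟩ := hEm _ hq
    simp only at h1 h2 h3 h4 h5
    obtain ⟨g1, g2, g3, g4, g5, g6, -⟩ := hφ a b h1.1 h1.2 h2
    set s := (φ (a, b)).1 with hs
    set t := (φ (a, b)).2 with ht
    set M : ℝ := max |(s : ℝ)| |(t : ℝ)| with hM
    have hM0 : 0 ≤ M := le_max_of_le_left (abs_nonneg _)
    refine ⟨g1, ?_, ?_⟩
    · apply g6 H (by linarith)
      · have : (|a| : ℤ) ≤ (X : ℤ) ^ 2 := h3
        have h' : |(a : ℝ)| ≤ (X : ℝ) ^ 2 := by exact_mod_cast this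
        calc |(a : ℝ)| ≤ (X : ℝ) ^ 2 := h'
          _ = H ^ 4 := by rw [← hHsq]; ring
      · have : (|b| : ℤ) ≤ (X : ℤ) ^ 3 := h4
        have h' : |(b : ℝ)| ≤ (X : ℝ) ^ 3 := by exact_mod_cast this
        calc |(b : ℝ)| ≤ (X : ℝ) ^ 3 := h'
          _ = H ^ 6 := by rw [← hHsq]; ring
    · rw [hNF]
      have hr : (radp m (PT a0 b0 s t).natAbs : ℝ) ≤ (condM a b : ℝ) := by
        exact_mod_cast radp_le_cond m mp ⟨i, hm⟩ a b _ g3 h1.1
      refine hr.trans ?_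
      have hc0 : (0 : ℝ) ≤ condM a b := Nat.cast_nonneg _
      have h6 : (condM a b : ℝ) ^ κ ≤ K0 * Cp * M ^ 12 := by
        calc (condM a b : ℝ) ^ κ ≤ K0 * max (|(a : ℝ)| ^ 3) ((b : ℝ) ^ 2) := h5.le
          _ ≤ K0 * (Cp * M ^ 12) := by gcongr
          _ = _ := by ring
      have h7 := Real.rpow_le_rpow (by positivity) h6 (by positivity : 0 ≤ 1 / κ)
      rw [← Real.rpow_mul hc0, mul_one_div_cancel hκ0.ne', Real.rpow_one,
        Real.mul_rpow (by positivity) (by positivity), ← Real.rpow_natCast _ 12,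
        ← Real.rpow_mul hM0] at h7
      refine h7.trans ?_
      have e : ((12 : ℕ) : ℝ) * (1 / κ) = 12 / κ := by
        push_cast
        ring
      rw [e]
      gcongr
      exact le_max_right _ _)
  rw [card_image_of_injOn hinj] at hmain
  refine hmain.trans (le_of_eq ?_)
  have hsq : H = (X : ℝ) ^ ((1 : ℝ) / 2) := by rw [hH, Real.sqrt_eq_rpow]
  rw [Real.mul_rpow (by linarith) (by linarith), hsq, ← Real.rpow_mul hX0.le, ← mul_assoc]
  congr 2
  ring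

/-- the exponent in closed form -/
theorem eD_four (κ : ℝ) (hκ : 0 < κ) : eD 4 (12 / κ) / 2 =
    min (33 / (7 * κ)) (max (6 / κ - 3 / 7) (6 / 13 + 6 / (13 * κ))) := by
  unfold eD
  rw [← min_div_div_right (by norm_num : (0 : ℝ) ≤ 2), ← max_div_div_right (by norm_num : (0 : ℝ) ≤ 2)]
  congr 1
  · field_simp
    norm_num
  · congr 1
    · field_simp
      push_cast
      ring
    · field_simp
      push_cast
      ring

end Pool.Agent.W4.QD
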