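import Pool.Agent.W4.QD.Pencil
import Pool.Agent.W4.QD.Num2

/-!
# Project QD: elliptic surfaces over the projective line
-/

set_option autoImplicit false

namespace Pool.Agent.W4.QD

open Finset Polynomial Pool.Agent.W4.CF Pool.Agent.W4.VC

theorem prod_radp_le (r m : ℕ) (nn : Fin r → ℕ) (S : Finset ℕ) (hS : ∀ p ∈ S, 1 ≤ p)
    (hd : ∀ i j, i ≠ j → ∀ p : ℕ, p.Prime → ¬ p ∣ m → ¬ (p ∣ nn i ∧ p ∣ nn j))
    (hm : ∀ j, ∀ p : ℕ, p.Prime → ¬ p ∣ m → p ∣ nn j → p ∈ S) :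
    ∏ j, radp m (nn j) ≤ ∏ p ∈ S, p := by
  classical
  unfold radp
  rw [← prod_biUnion]
  · refine Finset.prod_le_prod_of_subset_of_one_le' ?_ ?_
    · intro p hp
      rw [mem_biUnion] at hp
      obtain ⟨j, -, hp⟩ := hp
      rw [mem_filter] at hp
      exact hm j p (Nat.prime_of_mem_primeFactors hp.1) hp.2 (Nat.dvd_of_mem_primeFactors hp.1)
    · intro p hp _
      exact hS p hp
  · intro i _ j _ hij
    simp only [Function.onFun]
    rw [disjoint_left]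
    intro p hp hp'
    rw [mem_filter] at hp hp'
    exact hd i j hij p (Nat.prime_of_mem_primeFactors hp.1) hp.2
      ⟨Nat.dvd_of_mem_primeFactors hp.1, Nat.dvd_of_mem_primeFactors hp'.1⟩

theorem prod_le_condM (a b : ℤ) :
    ∏ p ∈ (DD a b).natAbs.primeFactors.filter (fun p => 5 ≤ p), p ≤ condM a b := by
  unfold CF.condM
  refine Finset.prod_le_prod (fun _ _ => Nat.zero_le _) ?_
  intro p hpm
  have hpp := Nat.prime_of_mem_primeFactors (mem_filter.mp hpm).1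
  split_ifs
  · exact Nat.le_self_pow (by norm_num) p
  · exact le_rfl

/-- the value of the form at `(u, v)`, `v ≠ 0` -/
theorem hom_eval (f : ℤ[X]) (n : ℕ) (hn : f.natDegree ≤ n) (u v : ℤ) (hv : v ≠ 0) :
    ((hom f n u v : ℤ) : ℚ) = (v : ℚ) ^ n * (f.map (Int.castRingHom ℚ)).eval ((u : ℚ) / v) := by
  have hvQ : (v : ℚ) ≠ 0 := by exact_mod_cast hv
  rw [eval_map, eval₂_eq_sum_range' _ (by omega : f.natDegree < n + 1)]
  unfold hom
  push_cast
  rw [mul_sum]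
  refine sum_congr rfl fun j hj => ?_
  rw [mem_range] at hj
  have e : (v : ℚ) ^ n = v ^ j * v ^ (n - j) := by
    rw [← pow_add]
    congr 1
    omega
  rw [e, div_pow, eq_intCast]
  field_simp

theorem hom_zero_right (f : ℤ[X]) (n : ℕ) (u : ℤ) : hom f n u 0 = f.coeff n * u ^ n := by
  unfold hom
  rw [sum_range_succ, sum_eq_zero, zero_add, Nat.sub_self, pow_zero, mul_one]
  intro j hj
  rw [mem_range] at hj
  rw [zero_pow (by omega), mul_zero]

/-- the discriminant of the fibre -/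
theorem hom_disc (A B : ℤ[X]) (k : ℕ) (hA : A.natDegree ≤ 4 * k) (hB : B.natDegree ≤ 6 * k)
    (u v : ℤ) : hom (4 * A ^ 3 - 27 * B ^ 2) (12 * k) u v =
      4 * (hom A (4 * k) u v) ^ 3 - 27 * (hom B (6 * k) u v) ^ 2 := by
  have hA3 : (A ^ 3).natDegree ≤ 12 * k := natDegree_pow_le.trans (by omega)
  have hB2 : (B ^ 2).natDegree ≤ 12 * k := natDegree_pow_le.trans (by omega)
  have hD : (4 * A ^ 3 - 27 * B ^ 2).natDegree ≤ 12 * k := by
    refine (natDegree_sub_le _ _).trans (max_le ?_ ?_)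
    · refine natDegree_mul_le.trans ?_
      rw [show (4 : ℤ[X]) = C 4 from rfl, natDegree_C, zero_add]
      exact hA3
    · refine natDegree_mul_le.trans ?_
      rw [show (27 : ℤ[X]) = C 27 from rfl, natDegree_C, zero_add]
      exact hB2
  by_cases hv : v = 0
  · rw [hv, hom_zero_right, hom_zero_right, hom_zero_right]
    have e1 : (A ^ 3).coeff (12 * k) = A.coeff (4 * k) ^ 3 := by
      rw [show 12 * k = 3 * (4 * k) by ring, coeff_pow_of_natDegree_le hA]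
    have e2 : (B ^ 2).coeff (12 * k) = B.coeff (6 * k) ^ 2 := by
      rw [show 12 * k = 2 * (6 * k) by ring, coeff_pow_of_natDegree_le hB]
    rw [coeff_sub, show (4 : ℤ[X]) = C 4 from rfl, show (27 : ℤ[X]) = C 27 from rfl, coeff_C_mul,
      coeff_C_mul, e1, e2]
    ring
  · have hvQ : (v : ℚ) ≠ 0 := by exact_mod_cast hv
    have h : ((hom (4 * A ^ 3 - 27 * B ^ 2) (12 * k) u v : ℤ) : ℚ) =
      ((4 * (hom A (4 * k) u v) ^ 3 - 27 * (hom B (6 * k) u v) ^ 2 : ℤ) : ℚ) := by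
      push_cast
      rw [hom_eval _ _ hD u v hv, hom_eval _ _ hA u v hv, hom_eval _ _ hB u v hv]
      simp only [Polynomial.map_sub, Polynomial.map_mul, Polynomial.map_pow, eval_sub, eval_mul,
        eval_pow, Polynomial.map_ofNat, eval_ofNat]
      ring
    exact_mod_cast h

theorem hom_abs_le (f : ℤ[X]) (n : ℕ) : ∃ C : ℝ, 1 ≤ C ∧ ∀ u v : ℤ,
    |((hom f n u v : ℤ) : ℝ)| ≤ C * (max |(u : ℝ)| |(v : ℝ)|) ^ n := by
  refine ⟨1 + ∑ j ∈ range (n + 1), |(f.coeff j : ℝ)|, ?_, fun u v => ?_⟩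
  · have : 0 ≤ ∑ j ∈ range (n + 1), |(f.coeff j : ℝ)| := sum_nonneg fun _ _ => abs_nonneg _
    linarith
  set M : ℝ := max |(u : ℝ)| |(v : ℝ)| with hM
  have hM0 : 0 ≤ M := le_max_of_le_left (abs_nonneg _)
  unfold hom
  push_cast
  calc |∑ j ∈ range (n + 1), (f.coeff j : ℝ) * (u : ℝ) ^ j * (v : ℝ) ^ (n - j)| ≤
        ∑ j ∈ range (n + 1), |(f.coeff j : ℝ) * (u : ℝ) ^ j * (v : ℝ) ^ (n - j)| :=
        abs_sum_le_sum_abs _ _
    _ ≤ ∑ j ∈ range (n + 1), |(f.coeff j : ℝ)| * M ^ n := by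
        refine sum_le_sum fun j hj => ?_
        rw [mem_range] at hj
        rw [abs_mul, abs_mul, abs_pow, abs_pow, mul_assoc]
        apply mul_le_mul_of_nonneg_left _ (abs_nonneg _)
        calc |(u : ℝ)| ^ j * |(v : ℝ)| ^ (n - j) ≤ M ^ j * M ^ (n - j) := by
              gcongr
              · exact le_max_left _ _
              · exact le_max_right _ _
          _ = M ^ n := by
              rw [← pow_add]
              congr 1
              omega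
    _ = (∑ j ∈ range (n + 1), |(f.coeff j : ℝ)|) * M ^ n := by rw [sum_mul]
    _ ≤ _ := by
        apply mul_le_mul_of_nonneg_right _ (by positivity)
        linarith

/-- the exceptional parameters -/
def ExSurf (k : ℕ) (A B : ℤ[X]) (κ c : ℝ) (X : ℕ) : Set (ℤ × ℤ) :=
  {q | IsCoprime q.1 q.2 ∧ |q.1| ≤ (X : ℤ) ∧ |q.2| ≤ (X : ℤ) ∧ ∃ (a b : ℤ) (u : ℚ), IsMinM a b ∧
    u ≠ 0 ∧ (a : ℚ) = u ^ 4 * hom A (4 * k) q.1 q.2 ∧ (b : ℚ) = u ^ 6 * hom B (6 * k) q.1 q.2 ∧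
    (condM a b : ℝ) ^ κ < c * |((DD a b : ℤ) : ℝ)|}

theorem exSurf_finite (k : ℕ) (A B : ℤ[X]) (κ c : ℝ) (X : ℕ) : (ExSurf k A B κ c X).Finite := by
  refine ((Finset.finite_toSet (Icc (-(X : ℤ)) (X : ℤ) ×ˢ Icc (-(X : ℤ)) (X : ℤ)))).subset ?_
  rintro ⟨a, b⟩ ⟨-, h1, h2, -⟩
  simp only at h1 h2
  rw [Finset.mem_coe, mem_product, mem_Icc, mem_Icc]
  exact ⟨abs_le.mp h1, abs_le.mp h2⟩

/-- a prime which divides the discriminant of the fibre and not its first coefficient divides the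
discriminant of every minimal model -/
theorem prime_dvd_min (a b A B : ℤ) (u : ℚ) (hu : u ≠ 0) (ha : (a : ℚ) = u ^ 4 * A)
    (hb : (b : ℚ) = u ^ 6 * B) (p : ℕ) (hp : p.Prime) (hA : ¬ (p : ℤ) ∣ A)
    (hD : (p : ℤ) ∣ 4 * A ^ 3 - 27 * B ^ 2) (hne : 4 * A ^ 3 - 27 * B ^ 2 ≠ 0) :
    (p : ℤ) ∣ 4 * a ^ 3 - 27 * b ^ 2 := by
  have : Fact p.Prime := ⟨hp⟩
  have hA0 : A ≠ 0 := fun h => hA (h ▸ dvd_zero _)
  have hAQ : (A : ℚ) ≠ 0 := by exact_mod_cast hA0
  have e1 : ((4 * a ^ 3 - 27 * b ^ 2 : ℤ) : ℚ) = u ^ 12 * ((4 * A ^ 3 - 27 * B ^ 2 : ℤ) : ℚ) := by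
    push_cast
    rw [ha, hb]
    ring
  have hne' : ((4 * A ^ 3 - 27 * B ^ 2 : ℤ) : ℚ) ≠ 0 := by exact_mod_cast hne
  have hd0 : ((4 * a ^ 3 - 27 * b ^ 2 : ℤ) : ℚ) ≠ 0 := by
    rw [e1]
    exact mul_ne_zero (pow_ne_zero _ hu) hne'
  -- the valuation of `u`
  have hvA : padicValRat p (A : ℚ) = 0 := by
    rw [padicValRat.of_int, padicValInt.eq_zero_of_not_dvd hA]
    rfl
  have hva : 0 ≤ padicValRat p (a : ℚ) := by
    rw [padicValRat.of_int]
    exact Int.natCast_nonneg _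
  have h1 : padicValRat p (a : ℚ) = 4 * padicValRat p u := by
    rw [ha, padicValRat.mul (pow_ne_zero _ hu) hAQ, hvA, add_zero, padicValRat.pow]
    push_cast
    ring
  have hvu : 0 ≤ padicValRat p u := by omega
  have hvD : 1 ≤ padicValRat p ((4 * A ^ 3 - 27 * B ^ 2 : ℤ) : ℚ) := by
    rw [padicValRat.of_int]
    have h2 := (padicValInt_dvd_iff 1 (4 * A ^ 3 - 27 * B ^ 2)).mp (by simpa using hD)
    rcases h2 with h2 | h2
    · exact absurd h2 hne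
    · exact_mod_cast h2
  have hvd : 1 ≤ padicValRat p ((4 * a ^ 3 - 27 * b ^ 2 : ℤ) : ℚ) := by
    rw [e1, padicValRat.mul (pow_ne_zero _ hu) hne', padicValRat.pow]
    push_cast
    push_cast at hvD
    omega
  rw [padicValRat.of_int] at hvd
  have h3 : (p : ℤ) ^ 1 ∣ 4 * a ^ 3 - 27 * b ^ 2 := by
    rw [padicValInt_dvd_iff]
    right
    exact_mod_cast hvd
  simpa using h3

/-- COUNT of the exceptional fibres -/
theorem surf_count (hTR : S_TRF) (hH : S_HF) (hP : S_PRD) (k : ℕ) (A B : ℤ[X]) (hk : 1 ≤ k)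
    (hA : A.natDegree ≤ 4 * k) (hB : B.natDegree ≤ 6 * k) (r : ℕ) (hr : 1 ≤ r) (g : Fin r → ℤ[X])
    (hg : ∀ j, Irreducible ((g j).map (Int.castRingHom ℚ)) ∧ 3 ≤ (g j).natDegree)
    (hgD : ∀ j, (g j).map (Int.castRingHom ℚ) ∣ (4 * A ^ 3 - 27 * B ^ 2).map (Int.castRingHom ℚ))
    (hgA : ∀ j, ¬ (g j).map (Int.castRingHom ℚ) ∣ A.map (Int.castRingHom ℚ))
    (hgg : ∀ i j, i ≠ j → ¬ (g i).map (Int.castRingHom ℚ) ∣ (g j).map (Int.castRingHom ℚ))
    (κ c E ε : ℝ) (hκ : 0 < κ) (hc : 0 < c) (hε : 0 < ε) (lam : Fin r → ℝ)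
    (hl : ∀ j, 0 ≤ lam j ∧ lam j ≤ ((g j).natDegree : ℝ) - 2) (hL : 12 * k / κ ≤ ∑ j, lam j)
    (hE : ∀ j, eD (g j).natDegree (lam j) ≤ E) :
    ∃ C : ℝ, ∀ X : ℕ, 1 ≤ X → (ExSurf k A B κ c X).Finite ∧
      ((ExSurf k A B κ c X).ncard : ℝ) ≤ C * (X : ℝ) ^ (E + ε) := by
  classical
  have hD : (4 * A ^ 3 - 27 * B ^ 2).natDegree ≤ 12 * k := by
    refine (natDegree_sub_le _ _).trans (max_le ?_ ?_)
    · refine natDegree_mul_le.trans ?_
      rw [show (4 : ℤ[X]) = C 4 from rfl, natDegree_C, zero_add]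
      exact natDegree_pow_le.trans (by omega)
    · refine natDegree_mul_le.trans ?_
      rw [show (27 : ℤ[X]) = C 27 from rfl, natDegree_C, zero_add]
      exact natDegree_pow_le.trans (by omega)
  have h1 := fun j => (hP (g j) _ (12 * k) (hg j).1 hD).1 (hgD j)
  choose m1 hm1 hm1' using h1
  have h2 := fun j => (hP (g j) A (4 * k) (hg j).1 hA).2 (hgA j)
  choose m2 hm2 hm2' using h2
  have h3 : ∀ i j : Fin r, ∃ m : ℕ, 1 ≤ m ∧ (i ≠ j → ∀ (p : ℕ) (u v : ℤ), IsCoprime u v →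
      p.Prime → ¬ p ∣ m → ¬ ((p : ℤ) ∣ hom (g i) (g i).natDegree u v ∧
        (p : ℤ) ∣ hom (g j) (g j).natDegree u v)) := by
    intro i j
    by_cases hij : i = j
    · exact ⟨1, le_rfl, fun h => absurd hij h⟩
    · obtain ⟨m, hm, h⟩ := (hP (g i) (g j) (g j).natDegree (hg i).1 le_rfl).2 (hgg i j hij)
      exact ⟨m, hm, fun _ => h⟩
  choose m3 hm3 hm3' using h3
  set m : ℕ := 6 * (∏ j, m1 j) * (∏ j, m2 j) * (∏ i, ∏ j, m3 i j) with hm
  have hmpos : 1 ≤ m := by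
    have e1 : 0 < ∏ j, m1 j := prod_pos fun j _ => hm1 j
    have e2 : 0 < ∏ j, m2 j := prod_pos fun j _ => hm2 j
    have e3 : 0 < ∏ i, ∏ j, m3 i j := prod_pos fun i _ => prod_pos fun j _ => hm3 i j
    rw [hm]
    exact Nat.mul_pos (Nat.mul_pos (Nat.mul_pos (by norm_num) e1) e2) e3
  have d1 : ∀ j, m1 j ∣ m := fun j => by
    rw [hm]
    exact ((dvd_prod_of_mem _ (mem_univ j)).trans (Dvd.intro_left _ rfl)).trans
      ((Dvd.intro _ rfl).trans (Dvd.intro _ rfl))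
  have d2 : ∀ j, m2 j ∣ m := fun j => by
    rw [hm]
    exact ((dvd_prod_of_mem _ (mem_univ j)).trans (Dvd.intro_left _ rfl)).trans
      (Dvd.intro _ rfl)
  have d3 : ∀ i j, m3 i j ∣ m := fun i j => by
    rw [hm]
    exact ((dvd_prod_of_mem (fun j => m3 i j) (mem_univ j)).trans
      (dvd_prod_of_mem (fun i => ∏ j, m3 i j) (mem_univ i))).trans (Dvd.intro_left _ rfl)
  have d6 : 6 ∣ m := by
    rw [hm]
    exact ((Dvd.intro _ rfl).trans (Dvd.intro _ rfl)).trans (Dvd.intro _ rfl)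
  obtain ⟨C1, hC1, hdisc⟩ := hom_abs_le (4 * A ^ 3 - 27 * B ^ 2) (12 * k)
  set C0 : ℝ := max 1 ((c * C1) ^ (1 / κ)) with hC0
  obtain ⟨C, hC, hcount⟩ := pig hTR hH r hr g hg (12 * k / κ) E lam hl hL hE m C0 ε hmpos
    (le_max_left _ _) hε
  refine ⟨C, fun X hX => ⟨exSurf_finite _ _ _ _ _ _, ?_⟩⟩
  have hX1 : (1 : ℝ) ≤ X := by exact_mod_cast hX
  set T : Finset (ℤ × ℤ) := (exSurf_finite k A B κ c X).toFinset with hT
  rw [Set.ncard_eq_toFinset_card _ (exSurf_finite k A B κ c X), ← hT]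
  refine hcount X hX1 T ?_
  rintro ⟨s, t⟩ hq
  rw [hT, Set.Finite.mem_toFinset] at hq
  obtain ⟨hst, hs, ht, a, b, u, hmin, hu, ha, hb, hex⟩ := hq
  simp only at hst hs ht ha hb
  have hs' : |(s : ℝ)| ≤ X := by exact_mod_cast hs
  have ht' : |(t : ℝ)| ≤ X := by exact_mod_cast ht
  refine ⟨hst, max_le hs' ht', ?_⟩
  set M : ℝ := max |(s : ℝ)| |(t : ℝ)| with hM
  have hM0 : 0 ≤ M := le_max_of_le_left (abs_nonneg _)
  set As : ℤ := hom A (4 * k) s t with hAs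
  set Bs : ℤ := hom B (6 * k) s t with hBs
  have hdd : hom (4 * A ^ 3 - 27 * B ^ 2) (12 * k) s t = 4 * As ^ 3 - 27 * Bs ^ 2 :=
    hom_disc A B k hA hB s t
  have hDDne : 4 * a ^ 3 - 27 * b ^ 2 ≠ 0 := hmin.1
  have e1 : ((4 * a ^ 3 - 27 * b ^ 2 : ℤ) : ℚ) = u ^ 12 * ((4 * As ^ 3 - 27 * Bs ^ 2 : ℤ) : ℚ) := by
    push_cast
    rw [ha, hb]
    ring
  have hne : 4 * As ^ 3 - 27 * Bs ^ 2 ≠ 0 := by
    intro h
    rw [h, Int.cast_zero, mul_zero] at e1
    exact hDDne (by exact_mod_cast e1)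
  -- minimality
  have hle : |((DD a b : ℤ) : ℝ)| ≤ C1 * M ^ (12 * k) := by
    have h4 := hmin.2 u⁻¹ As Bs (inv_ne_zero hu) (by rw [ha]; field_simp) (by rw [hb]; field_simp)
    have h5 : |DD a b| ≤ |4 * As ^ 3 - 27 * Bs ^ 2| := h4
    have h6 : |((DD a b : ℤ) : ℝ)| ≤ |((4 * As ^ 3 - 27 * Bs ^ 2 : ℤ) : ℝ)| := by exact_mod_cast h5
    refine h6.trans ?_
    rw [← hdd]
    exact hdisc s t
  -- the radicals
  have hrad : ∏ j, radp m (hom (g j) (g j).natDegree s t).natAbs ≤ condM a b := by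
    refine (prod_radp_le r m _ ((DD a b).natAbs.primeFactors.filter (fun p => 5 ≤ p)) ?_ ?_
      ?_).trans (prod_le_condM a b)
    · intro p hp
      exact (Nat.prime_of_mem_primeFactors (mem_filter.mp hp).1).one_lt.le
    · intro i j hij p hp hpm ⟨h5, h6⟩
      exact hm3' i j hij p s t hst hp (fun h => hpm (h.trans (d3 i j)))
        ⟨Int.natCast_dvd.mpr h5, Int.natCast_dvd.mpr h6⟩
    · intro j p hp hpm hpj
      have h5 : (p : ℤ) ∣ hom (g j) (g j).natDegree s t := Int.natCast_dvd.mpr hpj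
      have h6 : (p : ℤ) ∣ 4 * As ^ 3 - 27 * Bs ^ 2 := by
        rw [← hdd]
        exact hm1' j p s t hp (fun h => hpm (h.trans (d1 j))) h5
      have h7 : ¬ (p : ℤ) ∣ As := fun h => hm2' j p s t hst hp (fun h => hpm (h.trans (d2 j)))
        ⟨h5, h⟩
      have h8 := prime_dvd_min a b As Bs u hu ha hb p hp h7 h6 hne
      rw [mem_filter, Nat.mem_primeFactors]
      refine ⟨⟨hp, Int.natCast_dvd.mp h8, Int.natAbs_ne_zero.mpr hDDne⟩, ?_⟩
      by_contra hcon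
      push Not at hcon
      have hp2 := hp.two_le
      apply hpm
      have : p = 2 ∨ p = 3 := by
        have h4 : p ≠ 4 := by
          rintro rfl
          exact absurd hp (by norm_num)
        omega
      rcases this with rfl | rfl
      · exact (by norm_num : 2 ∣ 6).trans d6
      · exact (by norm_num : 3 ∣ 6).trans d6
  have hrad' : ∏ j, (radp m (hom (g j) (g j).natDegree s t).natAbs : ℝ) ≤ (condM a b : ℝ) := by
    exact_mod_cast hrad
  refine hrad'.trans ?_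
  have hc0 : (0 : ℝ) ≤ condM a b := Nat.cast_nonneg _
  have h6 : (condM a b : ℝ) ^ κ ≤ c * C1 * M ^ (12 * k) := by
    calc (condM a b : ℝ) ^ κ ≤ c * |((DD a b : ℤ) : ℝ)| := hex.le
      _ ≤ c * (C1 * M ^ (12 * k)) := by gcongr
      _ = _ := by ring
  have h7 := Real.rpow_le_rpow (by positivity) h6 (by positivity : 0 ≤ 1 / κ)
  rw [← Real.rpow_mul hc0, mul_one_div_cancel hκ.ne', Real.rpow_one,
    Real.mul_rpow (by positivity) (by positivity), ← Real.rpow_natCast _ (12 * k),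
    ← Real.rpow_mul hM0] at h7
  refine h7.trans ?_
  have e : ((12 * k : ℕ) : ℝ) * (1 / κ) = 12 * k / κ := by
    push_cast
    ring
  rw [e]
  gcongr
  exact le_max_right _ _

end Pool.Agent.W4.QD
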